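import Pool.Agent.Q196.DE.Ucp

set_option autoImplicit false
set_option linter.unusedSectionVars false
set_option maxSynthPendingDepth 3

open MeasureTheory Set Filter Topology
open scoped ContDiff

namespace Pool.Agent.Q196.DE

/-- a smooth symmetric positive definite coefficient field on `U` -/
structure Ell {E : Type*} [NormedAddCommGroup E] [NormedSpace ℝ E]
    (a : E → (E →L[ℝ] ℝ) →L[ℝ] E) (U : Set E) : Prop where
  smooth : ContDiffOn ℝ ∞ a U
  symm : ∀ x ∈ U, ∀ ξ ζ : E →L[ℝ] ℝ, ζ (a x ξ) = ξ (a x ζ)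
  pos : ∀ x ∈ U, ∀ ξ : E →L[ℝ] ℝ, ξ ≠ 0 → 0 < ξ (a x ξ)

section cut

variable {E : Type*} [NormedAddCommGroup E] [NormedSpace ℝ E] [HasContDiffBump E]
  {F : Type*} [NormedAddCommGroup F] [NormedSpace ℝ F]

lemma cut_contDiff {y : E} (χ : ContDiffBump y) {U : Set E} (hU : IsOpen U)
    (hsub : Metric.closedBall y χ.rOut ⊆ U) {g : E → F} (hg : ContDiffOn ℝ ∞ g U)
    [FiniteDimensional ℝ E] :
    ContDiff ℝ ∞ (fun x => χ x • g x) := by
  rw [contDiff_iff_contDiffAt]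
  intro x
  by_cases hx : x ∈ U
  · exact (χ.contDiff (n := (⊤ : ℕ∞))).contDiffAt.smul (hg.contDiffAt (hU.mem_nhds hx))
  · have hx2 : x ∉ tsupport χ := by
      rw [χ.tsupport_eq]
      exact fun h => hx (hsub h)
    have h1 : (χ : E → ℝ) =ᶠ[𝓝 x] 0 := notMem_tsupport_iff_eventuallyEq.1 hx2
    have h2 : (fun x => χ x • g x) =ᶠ[𝓝 x] fun _ => (0 : F) := by
      filter_upwards [h1] with z hz
      rw [hz]
      simp
    exact contDiffAt_const.congr_of_eventuallyEq h2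

end cut

variable {E : Type*} [NormedAddCommGroup E] [InnerProductSpace ℝ E] [FiniteDimensional ℝ E]

lemma PP_congr2 {a b : E → (E →L[ℝ] ℝ) →L[ℝ] E} {f h : E → ℝ} {x : E} (hab : a =ᶠ[𝓝 x] b)
    (hfh : f =ᶠ[𝓝 x] h) : PP a f x = PP b h x := by
  refine dv_congr ?_
  have h1 : fderiv ℝ f =ᶠ[𝓝 x] fderiv ℝ h := hfh.fderiv
  filter_upwards [h1, hab] with y hy hy2
  rw [hy, hy2]

theorem ucp_local' {a : E → (E →L[ℝ] ℝ) →L[ℝ] E} {U : Set E} (hU : IsOpen U) (ha : Ell a U)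
    {f : E → ℝ} (hf : ContDiffOn ℝ ∞ f U) {y z0 : E} (hy : y ∈ U) (hyz : y ≠ z0) {C : ℝ}
    (hPf : ∀ᶠ x in 𝓝 y, |PP a f x| ≤ C * |f x|)
    (h0 : ∀ᶠ x in 𝓝 y, ‖x - z0‖ < ‖y - z0‖ → f x = 0) : ∀ᶠ x in 𝓝 y, f x = 0 := by
  obtain ⟨R, hR, hsub⟩ := Metric.nhds_basis_closedBall.mem_iff.1 (hU.mem_nhds hy)
  let χ : ContDiffBump y := ⟨R / 2, R, by positivity, by linarith⟩
  have ha' : ContDiff ℝ ∞ (fun x => χ x • a x) := cut_contDiff χ hU hsub ha.smooth
  have hf' : ContDiff ℝ ∞ (fun x => χ x • f x) := cut_contDiff χ hU hsub hf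
  have hs' : Sym (fun x => χ x • a x) := by
    intro x ξ ζ
    by_cases hx : x ∈ U
    · simp only [_root_.smul_apply, map_smul, ha.symm x hx ξ ζ]
    · have : χ x = 0 := by
        apply χ.zero_of_le_dist
        by_contra h
        exact hx (hsub (Metric.mem_closedBall.2 (not_le.1 h).le))
      simp [this]
  have hχ1 : χ y = 1 := χ.one_of_mem_closedBall (Metric.mem_closedBall_self (by positivity))
  have hpos' : ∀ ξ : E →L[ℝ] ℝ, ξ ≠ 0 → 0 < ξ ((fun x => χ x • a x) y ξ) := by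
    intro ξ hξ
    simp only [hχ1, one_smul]
    exact ha.pos y hy ξ hξ
  have hev : ∀ᶠ x in 𝓝 y, (χ : E → ℝ) =ᶠ[𝓝 x] 1 := χ.eventuallyEq_one.eventuallyEq_nhds
  have hPf' : ∀ᶠ x in 𝓝 y, |PP (fun x => χ x • a x) (fun x => χ x • f x) x| ≤
      C * |χ x • f x| := by
    filter_upwards [hev, hPf] with x hx hx2
    have e1 : (fun x => χ x • a x) =ᶠ[𝓝 x] a := by
      filter_upwards [hx] with z hz
      rw [hz]
      simp
    have e2 : (fun x => χ x • f x) =ᶠ[𝓝 x] f := by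
      filter_upwards [hx] with z hz
      rw [hz]
      simp
    rw [PP_congr2 e1 e2, e2.eq_of_nhds]
    exact hx2
  have h0' : ∀ᶠ x in 𝓝 y, ‖x - z0‖ < ‖y - z0‖ → χ x • f x = 0 := by
    filter_upwards [h0] with x hx h
    rw [hx h, smul_zero]
  have := ucp_local ha' hs' hf' hyz hpos' hPf' h0'
  filter_upwards [this, χ.eventuallyEq_one] with x hx hx2
  simpa [hx2] using hx

/-- Unique continuation in a ball. -/
theorem ucp_ball {a : E → (E →L[ℝ] ℝ) →L[ℝ] E} {U : Set E} (hU : IsOpen U) (ha : Ell a U)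
    {f : E → ℝ} (hf : ContDiffOn ℝ ∞ f U) {z0 : E} {R : ℝ} (hsub : Metric.ball z0 R ⊆ U)
    (hPf : ∀ y ∈ U, ∃ C : ℝ, ∀ᶠ x in 𝓝 y, |PP a f x| ≤ C * |f x|)
    (h0 : ∀ᶠ x in 𝓝 z0, f x = 0) : ∀ x ∈ Metric.ball z0 R, f x = 0 := by
  obtain ⟨ε, hε, hεf⟩ := Metric.nhds_basis_ball.eventually_iff.1 h0
  let s : Set ℝ := {ρ | ∀ x, f x ≠ 0 → ρ ≤ dist x z0}
  have hscl : IsClosed s := by
    have : s = ⋂ x, ⋂ (_ : f x ≠ 0), Iic (dist x z0) := by
      ext ρ
      simp [s]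
    rw [this]
    exact isClosed_iInter fun x => isClosed_iInter fun _ => isClosed_Iic
  have hs : ∀ ρ, ρ ∈ s ↔ ∀ x ∈ Metric.ball z0 ρ, f x = 0 := by
    intro ρ
    constructor
    · intro h x hx
      by_contra hne
      exact absurd (h x hne) (not_le.2 (Metric.mem_ball.1 hx))
    · intro h x hx
      by_contra hne
      exact hx (h x (Metric.mem_ball.2 (not_le.1 hne)))
  by_cases hRε : R ≤ ε
  · intro x hx
    exact hεf (Metric.ball_subset_ball hRε hx)
  push Not at hRε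
  have key : ∀ R' < R, Icc ε R' ⊆ s := by
    intro R' hR'
    refine IsClosed.Icc_subset_of_forall_exists_gt (hscl.inter isClosed_Icc) ?_ ?_
    · exact (hs ε).2 fun x hx => hεf hx
    · rintro ρ ⟨hρs, hρε, hρR⟩ ρ' hρ'
      rw [hs] at hρs
      have hρ0 : 0 < ρ := lt_of_lt_of_le hε hρε
      have hcl : ∀ y ∈ Metric.closedBall z0 ρ, ∀ᶠ x in 𝓝 y, f x = 0 := by
        intro y hy
        rcases (Metric.mem_closedBall.1 hy).lt_or_eq with h | h
        · filter_upwards [Metric.isOpen_ball.mem_nhds (Metric.mem_ball.2 h)] with x hx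
          exact hρs x hx
        · have hyU : y ∈ U := hsub (Metric.mem_ball.2 (by rw [h]; linarith))
          have hyz : y ≠ z0 := by
            rintro rfl
            rw [dist_self] at h
            exact hρ0.ne h
          obtain ⟨C, hC⟩ := hPf y hyU
          refine ucp_local' hU ha hf hyU hyz hC (Eventually.of_forall fun x hx => ?_)
          apply hρs x
          rw [Metric.mem_ball, dist_eq_norm]
          rw [← dist_eq_norm, ← dist_eq_norm, h, dist_eq_norm] at hx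
          exact hx
      let O : Set E := {y | ∀ᶠ x in 𝓝 y, f x = 0}
      have hO : IsOpen O := isOpen_setOf_eventually_nhds
      obtain ⟨δ, hδ, hδs⟩ := (isCompact_closedBall z0 ρ).exists_thickening_subset_open hO hcl
      rw [thickening_closedBall hδ hρ0.le] at hδs
      have hmem : δ + ρ ∈ s := (hs _).2 fun x hx => (hδs hx : ∀ᶠ x in 𝓝 x, f x = 0).self_of_nhds
      have hdown : ∀ r ∈ s, ∀ r' ≤ r, r' ∈ s := fun r hr r' hr' x hx => hr'.trans (hr x hx)
      refine ⟨min (δ + ρ) ρ', hdown _ hmem _ (min_le_left _ _), ?_, min_le_right _ _⟩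
      exact lt_min (by linarith) hρ'
  intro x hx
  rw [Metric.mem_ball] at hx
  obtain ⟨R', h1, h2⟩ := exists_between (max_lt hRε hx)
  have hR's : R' ∈ s := key R' h2 (right_mem_Icc.2 (le_of_lt (lt_of_le_of_lt (le_max_left _ _) h1)))
  exact (hs R').1 hR's x (Metric.mem_ball.2 (lt_of_le_of_lt (le_max_right _ _) h1))

end Pool.Agent.Q196.DE
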