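import Pool.Agent.Q196.DE.Div

set_option autoImplicit false
set_option linter.unusedSectionVars false
set_option maxSynthPendingDepth 3

open MeasureTheory Set Filter Topology
open scoped ContDiff

namespace Pool.Agent.Q196.DE

variable {E : Type*} [NormedAddCommGroup E] [NormedSpace ℝ E] [FiniteDimensional ℝ E]

/-- symmetric coefficient field -/
def Sym (a : E → (E →L[ℝ] ℝ) →L[ℝ] E) : Prop := ∀ x (ξ ζ : E →L[ℝ] ℝ), ζ (a x ξ) = ξ (a x ζ)

/-- the field `a (df)` -/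
noncomputable def gr (a : E → (E →L[ℝ] ℝ) →L[ℝ] E) (f : E → ℝ) (y : E) : E := a y (fderiv ℝ f y)

lemma PP_eq (a : E → (E →L[ℝ] ℝ) →L[ℝ] E) (f : E → ℝ) (x : E) : PP a f x = dv (gr a f) x := rfl

section smooth

variable {a : E → (E →L[ℝ] ℝ) →L[ℝ] E} (ha : ContDiff ℝ ∞ a) {f h : E → ℝ}
  (hf : ContDiff ℝ ∞ f) (hh : ContDiff ℝ ∞ h)

include ha hf in
lemma gr_contDiff : ContDiff ℝ ∞ (gr a f) :=
  ha.clm_apply (hf.fderiv_right (m := ∞) (by simp))

lemma dv_contDiff {V : E → E} (hV : ContDiff ℝ ∞ V) : ContDiff ℝ ∞ (dv V) := by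
  have h1 : ContDiff ℝ ∞ (fderiv ℝ V) := hV.fderiv_right (m := ∞) (by simp)
  let L : (E →L[ℝ] E) →ₗ[ℝ] ℝ :=
    (LinearMap.trace ℝ E).comp (ContinuousLinearMap.coeLM ℝ)
  exact (LinearMap.toContinuousLinearMap L).contDiff.comp h1

include ha hf in
lemma PP_contDiff : ContDiff ℝ ∞ (PP a f) := dv_contDiff (gr_contDiff ha hf)

include ha hf hh in
lemma pair_contDiff : ContDiff ℝ ∞ (fun y => fderiv ℝ f y (gr a h y)) :=
  (hf.fderiv_right (m := ∞) (by simp)).clm_apply (gr_contDiff ha hh)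

/-- derivative of `df(Y)` -/
lemma fderiv_pair {Y : E → E} {x : E} (hf : ContDiff ℝ ∞ f) (hY : DifferentiableAt ℝ Y x)
    (t : E) : fderiv ℝ (fun y => fderiv ℝ f y (Y y)) x t =
      fderiv ℝ (fderiv ℝ f) x t (Y x) + fderiv ℝ f x (fderiv ℝ Y x t) := by
  have h1 : DifferentiableAt ℝ (fderiv ℝ f) x :=
    (hf.fderiv_right (m := ∞) (by simp)).differentiable (by simp) x
  rw [(h1.hasFDerivAt.clm_apply hY.hasFDerivAt).fderiv]
  simp [add_comm]

include ha hf in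
lemma fderiv_gr (x t : E) : fderiv ℝ (gr a f) x t =
    fderiv ℝ a x t (fderiv ℝ f x) + a x (fderiv ℝ (fderiv ℝ f) x t) := by
  have h1 : DifferentiableAt ℝ (fderiv ℝ f) x :=
    (hf.fderiv_right (m := ∞) (by simp)).differentiable (by simp) x
  have h2 : DifferentiableAt ℝ a x := ha.differentiable (by simp) x
  have h3 := (h2.hasFDerivAt.clm_apply h1.hasFDerivAt).fderiv
  unfold gr
  rw [h3]
  simp [add_comm]

lemma hess_symm (hf : ContDiff ℝ ∞ f) (x s t : E) :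
    fderiv ℝ (fderiv ℝ f) x s t = fderiv ℝ (fderiv ℝ f) x t s := by
  have h3 : IsSymmSndFDerivAt ℝ f x := hf.contDiffAt.isSymmSndFDerivAt (by
    simp only [minSmoothness_of_isRCLikeNormedField]
    exact WithTop.coe_le_coe.2 (le_top : (2 : ℕ∞) ≤ ⊤))
  exact h3 s t

end smooth

section flux

variable {a : E → (E →L[ℝ] ℝ) →L[ℝ] E} (ha : ContDiff ℝ ∞ a) (hs : Sym a) {φ v : E → ℝ}
  (hφ : ContDiff ℝ ∞ φ) (hv : ContDiff ℝ ∞ v)

/-- first flux -/
noncomputable def F1 (a : E → (E →L[ℝ] ℝ) →L[ℝ] E) (φ v : E → ℝ) (y : E) : E :=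
  (fderiv ℝ v y (gr a φ y)) • gr a v y
/-- second flux -/
noncomputable def F2 (a : E → (E →L[ℝ] ℝ) →L[ℝ] E) (φ v : E → ℝ) (y : E) : E :=
  (fderiv ℝ v y (gr a v y)) • gr a φ y
/-- third flux -/
noncomputable def F3 (a : E → (E →L[ℝ] ℝ) →L[ℝ] E) (φ v : E → ℝ) (y : E) : E :=
  (PP a φ y * v y) • gr a v y
/-- fourth flux -/
noncomputable def F4 (a : E → (E →L[ℝ] ℝ) →L[ℝ] E) (φ v : E → ℝ) (y : E) : E :=
  (v y ^ 2 * fderiv ℝ φ y (gr a φ y)) • gr a φ y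
/-- fifth flux -/
noncomputable def F5 (a : E → (E →L[ℝ] ℝ) →L[ℝ] E) (v : E → ℝ) (y : E) : E :=
  v y • gr a v y

include ha hφ hv in
lemma F1_cd : ContDiff ℝ ∞ (F1 a φ v) := (pair_contDiff ha hv hφ).smul (gr_contDiff ha hv)
include ha hφ hv in
lemma F2_cd : ContDiff ℝ ∞ (F2 a φ v) := (pair_contDiff ha hv hv).smul (gr_contDiff ha hφ)
include ha hφ hv in
lemma F3_cd : ContDiff ℝ ∞ (F3 a φ v) := ((PP_contDiff ha hφ).mul hv).smul (gr_contDiff ha hv)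
include ha hφ hv in
lemma F4_cd : ContDiff ℝ ∞ (F4 a φ v) :=
  ((hv.pow 2).mul (pair_contDiff ha hφ hφ)).smul (gr_contDiff ha hφ)
include ha hv in
lemma F5_cd : ContDiff ℝ ∞ (F5 a v) := hv.smul (gr_contDiff ha hv)

include ha hφ hv in
lemma dv_F1 (x : E) : dv (F1 a φ v) x =
    fderiv ℝ (fderiv ℝ v) x (gr a v x) (gr a φ x) + fderiv ℝ v x (fderiv ℝ (gr a φ) x (gr a v x))
      + fderiv ℝ v x (gr a φ x) * PP a v x := by
  unfold F1
  rw [dv_smul ((pair_contDiff ha hv hφ).differentiable (by simp) x)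
    ((gr_contDiff ha hv).differentiable (by simp) x),
    fderiv_pair hv ((gr_contDiff ha hφ).differentiable (by simp) x)]
  rfl

include ha hs hφ hv in
lemma dv_F2 (x : E) : dv (F2 a φ v) x =
    2 * fderiv ℝ (fderiv ℝ v) x (gr a φ x) (gr a v x) +
      fderiv ℝ v x (fderiv ℝ a x (gr a φ x) (fderiv ℝ v x))
      + fderiv ℝ v x (gr a v x) * PP a φ x := by
  unfold F2
  rw [dv_smul ((pair_contDiff ha hv hv).differentiable (by simp) x)
    ((gr_contDiff ha hφ).differentiable (by simp) x),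
    fderiv_pair hv ((gr_contDiff ha hv).differentiable (by simp) x), fderiv_gr ha hv, map_add,
    hs x (fderiv ℝ (fderiv ℝ v) x (gr a φ x)) (fderiv ℝ v x)]
  have h1 : fderiv ℝ (fderiv ℝ v) x (gr a φ x) (a x (fderiv ℝ v x)) =
    fderiv ℝ (fderiv ℝ v) x (gr a φ x) (gr a v x) := rfl
  rw [h1, PP_eq]
  ring

include ha hφ hv in
lemma dv_F3 (x : E) : dv (F3 a φ v) x =
    PP a φ x * fderiv ℝ v x (gr a v x) + v x * fderiv ℝ (PP a φ) x (gr a v x)
      + PP a φ x * v x * PP a v x := by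
  unfold F3
  have h1 : DifferentiableAt ℝ (PP a φ) x := (PP_contDiff ha hφ).differentiable (by simp) x
  have h2 : DifferentiableAt ℝ v x := hv.differentiable (by simp) x
  rw [dv_smul (h1.fun_mul h2) ((gr_contDiff ha hv).differentiable (by simp) x),
    fderiv_fun_mul h1 h2, PP_eq a v]
  simp

include ha hφ hv in
lemma dv_F4 (x : E) : dv (F4 a φ v) x =
    2 * v x * fderiv ℝ φ x (gr a φ x) * fderiv ℝ v x (gr a φ x) +
      v x ^ 2 * fderiv ℝ (fun y => fderiv ℝ φ y (gr a φ y)) x (gr a φ x)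
      + v x ^ 2 * fderiv ℝ φ x (gr a φ x) * PP a φ x := by
  unfold F4
  have h1 : DifferentiableAt ℝ (fun y => fderiv ℝ φ y (gr a φ y)) x :=
    (pair_contDiff ha hφ hφ).differentiable (by simp) x
  have h2 : DifferentiableAt ℝ v x := hv.differentiable (by simp) x
  rw [dv_smul ((h2.fun_pow 2).fun_mul h1) ((gr_contDiff ha hφ).differentiable (by simp) x),
    fderiv_fun_mul (h2.fun_pow 2) h1, fderiv_fun_pow 2 h2, PP_eq a φ]
  simp
  ring

include ha hv in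
lemma dv_F5 (x : E) : dv (F5 a v) x = fderiv ℝ v x (gr a v x) + v x * PP a v x := by
  unfold F5
  have h2 : DifferentiableAt ℝ v x := hv.differentiable (by simp) x
  rw [dv_smul h2 ((gr_contDiff ha hv).differentiable (by simp) x), PP_eq a v]

end flux

/-- the real inequality behind the Carleman estimate -/
lemma carl_real {p u dX dW N m K R T mW n C1 C2 α β κ Nb τ : ℝ} (hτ : 0 ≤ τ)
    (h1 : -(C1 * n ^ 2) ≤ 2 * R - T) (h2 : κ ≤ K) (h3 : |mW| ≤ C2 * n) (h4 : α * n ^ 2 ≤ dW)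
    (h6 : N ≤ Nb) (hβ : β * α = C1 + 1 / 2) (hβ0 : 0 ≤ β) :
    (2 * τ ^ 3 * (κ - β * Nb) - τ ^ 2 * β ^ 2 - τ * C2 ^ 2) * u ^ 2
      - 2 * τ * (2 * (R + dX * p) - (T + dW * m))
      - 2 * τ * (m * dW + u * mW + m * u * p)
      - 2 * τ ^ 3 * (2 * u * N * dX + u ^ 2 * K + u ^ 2 * N * m)
      - 2 * τ * β * (dW + u * p) ≤ (p + τ ^ 2 * N * u - τ * (2 * dX + m * u)) ^ 2 := by
  set S := p + τ ^ 2 * N * u with hS
  set A := 2 * dX + m * u with hA
  have e1 : 0 ≤ τ ^ 2 * A ^ 2 := by positivity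
  have e2 : 0 ≤ (S + τ * β * u) ^ 2 := sq_nonneg _
  have e3 : 0 ≤ τ * (n - C2 * |u|) ^ 2 := by positivity
  have e4 : 0 ≤ τ * (2 * R - T + C1 * n ^ 2) := mul_nonneg hτ (by linarith)
  have e5 : 0 ≤ τ ^ 3 * u ^ 2 * (K - κ) := by
    have : 0 ≤ K - κ := by linarith
    positivity
  have e6 : 0 ≤ τ * β * (dW - α * n ^ 2) := by
    have : 0 ≤ dW - α * n ^ 2 := by linarith
    positivity
  have e7 : 0 ≤ τ ^ 3 * β * u ^ 2 * (Nb - N) := by
    have : 0 ≤ Nb - N := by linarith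
    positivity
  have e8 : 0 ≤ τ * (u * mW + |u| * (C2 * n)) := by
    apply mul_nonneg hτ
    have : |u * mW| ≤ |u| * (C2 * n) := by
      rw [abs_mul]
      exact mul_le_mul_of_nonneg_left h3 (abs_nonneg _)
    have := (abs_le.1 this).1
    linarith
  have e9 : |u| ^ 2 = u ^ 2 := sq_abs u
  have e10 : τ * β * (α * n ^ 2) = τ * (C1 + 1 / 2) * n ^ 2 := by rw [← hβ]; ring
  have hp : p = S - τ ^ 2 * N * u := by rw [hS]; ring
  have e3' : τ * (n - C2 * |u|) ^ 2 = τ * n ^ 2 - 2 * τ * n * C2 * |u| + τ * C2 ^ 2 * u ^ 2 := by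
    rw [← e9]; ring
  rw [hp]
  have hid : (S - τ * A) ^ 2 - ((2 * τ ^ 3 * (κ - β * Nb) - τ ^ 2 * β ^ 2 - τ * C2 ^ 2) * u ^ 2
      - 2 * τ * (2 * (R + dX * (S - τ ^ 2 * N * u)) - (T + dW * m))
      - 2 * τ * (m * dW + u * mW + m * u * (S - τ ^ 2 * N * u))
      - 2 * τ ^ 3 * (2 * u * N * dX + u ^ 2 * K + u ^ 2 * N * m)
      - 2 * τ * β * (dW + u * (S - τ ^ 2 * N * u))) =
      τ ^ 2 * A ^ 2 + (S + τ * β * u) ^ 2 + τ * C2 ^ 2 * u ^ 2
      + 2 * (τ * (2 * R - T)) + 2 * (τ ^ 3 * u ^ 2 * (K - κ)) + 2 * τ * (u * mW)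
      + 2 * τ * β * dW + 2 * (τ ^ 3 * β * u ^ 2 * (Nb - N)) := by
    rw [hA]; ring
  nlinarith [hid, e1, e2, e3, e4, e5, e6, e7, e8, e10, e3']

end Pool.Agent.Q196.DE
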