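import Pool.Agent.Q196.DE.Carl

set_option autoImplicit false
set_option linter.unusedSectionVars false
set_option maxSynthPendingDepth 3

open MeasureTheory Set Filter Topology
open scoped ContDiff

namespace Pool.Agent.Q196.DE

variable {E : Type*} [NormedAddCommGroup E] [NormedSpace ℝ E] [FiniteDimensional ℝ E]

variable {a : E → (E →L[ℝ] ℝ) →L[ℝ] E} (ha : ContDiff ℝ ∞ a) (hs : Sym a) {φ v w : E → ℝ}
  (hφ : ContDiff ℝ ∞ φ) (hv : ContDiff ℝ ∞ v) (hw : ContDiff ℝ ∞ w)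

/-- the conjugated operator -/
noncomputable def Pτ (a : E → (E →L[ℝ] ℝ) →L[ℝ] E) (φ v : E → ℝ) (τ : ℝ) (x : E) : ℝ :=
  PP a v x + τ ^ 2 * fderiv ℝ φ x (gr a φ x) * v x -
    τ * (2 * fderiv ℝ v x (gr a φ x) + PP a φ x * v x)

include hφ in
lemma exp_cd (τ : ℝ) : ContDiff ℝ ∞ (fun y => Real.exp (τ * φ y)) :=
  (contDiff_const.mul hφ).exp

include ha hs hφ hw in
/-- conjugation identity -/
lemma conj_eq (τ : ℝ) (x : E) :
    Real.exp (τ * φ x) * PP a w x = Pτ a φ (fun y => Real.exp (τ * φ y) * w y) τ x := by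
  set v : E → ℝ := fun y => Real.exp (τ * φ y) * w y with hv
  have hvc : ContDiff ℝ ∞ v := (exp_cd hφ τ).mul hw
  have hφd : ∀ y, DifferentiableAt ℝ φ y := fun y => hφ.differentiable (by simp) y
  have hwd : ∀ y, DifferentiableAt ℝ w y := fun y => hw.differentiable (by simp) y
  have hed : ∀ y, HasFDerivAt (fun y => Real.exp (τ * φ y))
      (Real.exp (τ * φ y) • (τ • fderiv ℝ φ y)) y := by
    intro y
    exact ((hφd y).hasFDerivAt.const_mul τ).exp
  have hvd : ∀ y, fderiv ℝ v y = Real.exp (τ * φ y) • fderiv ℝ w y +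
      w y • (Real.exp (τ * φ y) • (τ • fderiv ℝ φ y)) := by
    intro y
    exact ((hed y).mul (hwd y).hasFDerivAt).fderiv
  have hgr : gr a v = fun y => Real.exp (τ * φ y) • (gr a w y + (τ * w y) • gr a φ y) := by
    funext y
    unfold gr
    rw [hvd y]
    simp only [map_add, map_smul, smul_add, smul_smul]
    congr 1
    ring_nf
  have hgw := (gr_contDiff ha hw).differentiable (by simp) x
  have hgφ := (gr_contDiff ha hφ).differentiable (by simp) x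
  have hPv : PP a v x = Real.exp (τ * φ x) * τ * fderiv ℝ φ x (gr a w x + (τ * w x) • gr a φ x)
      + Real.exp (τ * φ x) * (PP a w x + τ * fderiv ℝ w x (gr a φ x) + τ * w x * PP a φ x) := by
    rw [PP_eq a v, hgr]
    have hτw : DifferentiableAt ℝ (fun y => τ * w y) x := (hwd x).const_mul τ
    rw [dv_smul (hed x).differentiableAt (hgw.fun_add (hτw.fun_smul hgφ)),
      dv_add hgw (hτw.fun_smul hgφ), dv_smul hτw hgφ, (hed x).fderiv,
      fderiv_const_mul (hwd x)]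
    simp only [PP_eq, ContinuousLinearMap.smul_apply, smul_eq_mul]
    ring
  have hsym : fderiv ℝ φ x (gr a w x) = fderiv ℝ w x (gr a φ x) := hs x _ _
  unfold Pτ
  rw [hPv, hvd x]
  simp only [map_add, map_smul, smul_eq_mul, ContinuousLinearMap.add_apply,
    ContinuousLinearMap.smul_apply, hsym, hv]
  ring

/-- The structural hypotheses at a point. -/
structure Hyp (a : E → (E →L[ℝ] ℝ) →L[ℝ] E) (φ : E → ℝ) (C1 C2 α κ Nb : ℝ) (x : E) : Prop where
  h1 : ∀ ξ : E →L[ℝ] ℝ, -(C1 * ‖ξ‖ ^ 2) ≤ 2 * ξ (fderiv ℝ (gr a φ) x (a x ξ)) -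
    ξ (fderiv ℝ a x (gr a φ x) ξ)
  h2 : κ ≤ fderiv ℝ (fun y => fderiv ℝ φ y (gr a φ y)) x (gr a φ x)
  h3 : ∀ ξ : E →L[ℝ] ℝ, |fderiv ℝ (PP a φ) x (a x ξ)| ≤ C2 * ‖ξ‖
  h4 : ∀ ξ : E →L[ℝ] ℝ, α * ‖ξ‖ ^ 2 ≤ ξ (a x ξ)
  h6 : fderiv ℝ φ x (gr a φ x) ≤ Nb

/-- the total flux -/
noncomputable def FF (a : E → (E →L[ℝ] ℝ) →L[ℝ] E) (φ v : E → ℝ) (τ β : ℝ) (y : E) : E :=
  ((((-4 * τ) • F1 a φ v y + (2 * τ) • F2 a φ v y) + (-2 * τ) • F3 a φ v y)
    + (-2 * τ ^ 3) • F4 a φ v y) + (-2 * τ * β) • F5 a v y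

include ha hφ hv in
lemma FF_cd (τ β : ℝ) : ContDiff ℝ ∞ (FF a φ v τ β) := by
  have h1 := F1_cd ha hφ hv
  have h2 := F2_cd ha hφ hv
  have h3 := F3_cd ha hφ hv
  have h4 := F4_cd ha hφ hv
  have h5 := F5_cd ha hv
  exact ((((h1.const_smul (-4 * τ)).add (h2.const_smul (2 * τ))).add (h3.const_smul (-2 * τ))).add
    (h4.const_smul (-2 * τ ^ 3))).add (h5.const_smul (-2 * τ * β))

lemma dv_const_smul {V : E → E} {x : E} (c : ℝ) (hV : DifferentiableAt ℝ V x) :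
    dv (fun y => c • V y) x = c * dv V x := by
  unfold dv
  rw [fderiv_fun_const_smul hV]
  exact map_smul (LinearMap.trace ℝ E) c (fderiv ℝ V x).toLinearMap

include ha hs hφ hv in
lemma dv_FF (τ β : ℝ) (x : E) : dv (FF a φ v τ β) x =
      - 2 * τ * (2 * (fderiv ℝ v x (fderiv ℝ (gr a φ) x (gr a v x)) +
        fderiv ℝ v x (gr a φ x) * PP a v x) -
        (fderiv ℝ v x (fderiv ℝ a x (gr a φ x) (fderiv ℝ v x)) +
          fderiv ℝ v x (gr a v x) * PP a φ x))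
      - 2 * τ * (PP a φ x * fderiv ℝ v x (gr a v x) + v x * fderiv ℝ (PP a φ) x (gr a v x)
        + PP a φ x * v x * PP a v x)
      - 2 * τ ^ 3 * (2 * v x * fderiv ℝ φ x (gr a φ x) * fderiv ℝ v x (gr a φ x) +
        v x ^ 2 * fderiv ℝ (fun y => fderiv ℝ φ y (gr a φ y)) x (gr a φ x)
        + v x ^ 2 * fderiv ℝ φ x (gr a φ x) * PP a φ x)
      - 2 * τ * β * (fderiv ℝ v x (gr a v x) + v x * PP a v x) := by
  have h1 := (F1_cd ha hφ hv).differentiable (by simp) x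
  have h2 := (F2_cd ha hφ hv).differentiable (by simp) x
  have h3 := (F3_cd ha hφ hv).differentiable (by simp) x
  have h4 := (F4_cd ha hφ hv).differentiable (by simp) x
  have h5 := (F5_cd ha hv).differentiable (by simp) x
  have k1 := h1.fun_const_smul (-4 * τ)
  have k2 := h2.fun_const_smul (2 * τ)
  have k3 := h3.fun_const_smul (-2 * τ)
  have k4 := h4.fun_const_smul (-2 * τ ^ 3)
  have k5 := h5.fun_const_smul (-2 * τ * β)
  unfold FF
  rw [dv_add (((k1.fun_add k2).fun_add k3).fun_add k4) k5,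
    dv_add ((k1.fun_add k2).fun_add k3) k4, dv_add (k1.fun_add k2) k3, dv_add k1 k2,
    dv_const_smul _ h1, dv_const_smul _ h2, dv_const_smul _ h3, dv_const_smul _ h4,
    dv_const_smul _ h5, dv_F1 ha hφ hv, dv_F2 ha hs hφ hv, dv_F3 ha hφ hv, dv_F4 ha hφ hv,
    dv_F5 ha hv, hess_symm hv x (gr a v x) (gr a φ x)]
  ring

include ha hs hφ hv in
/-- pointwise Carleman inequality -/
lemma carl_point {C1 C2 α β κ Nb τ : ℝ} (hτ : 0 ≤ τ) (hβ : β * α = C1 + 1 / 2) (hβ0 : 0 ≤ β)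
    {x : E} (hx : x ∈ tsupport v → Hyp a φ C1 C2 α κ Nb x) :
    (2 * τ ^ 3 * (κ - β * Nb) - τ ^ 2 * β ^ 2 - τ * C2 ^ 2) * v x ^ 2 + dv (FF a φ v τ β) x
      ≤ (Pτ a φ v τ x) ^ 2 := by
  rw [dv_FF ha hs hφ hv]
  by_cases hxs : x ∈ tsupport v
  · obtain ⟨h1, h2, h3, h4, h6⟩ := hx hxs
    have key := carl_real (p := PP a v x) (u := v x) (dX := fderiv ℝ v x (gr a φ x))
      (dW := fderiv ℝ v x (gr a v x)) (N := fderiv ℝ φ x (gr a φ x)) (m := PP a φ x)
      (K := fderiv ℝ (fun y => fderiv ℝ φ y (gr a φ y)) x (gr a φ x))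
      (R := fderiv ℝ v x (fderiv ℝ (gr a φ) x (gr a v x)))
      (T := fderiv ℝ v x (fderiv ℝ a x (gr a φ x) (fderiv ℝ v x)))
      (mW := fderiv ℝ (PP a φ) x (gr a v x)) (n := ‖fderiv ℝ v x‖) (C1 := C1) (C2 := C2)
      hτ (h1 (fderiv ℝ v x)) h2 (h3 (fderiv ℝ v x)) (h4 (fderiv ℝ v x)) h6 hβ hβ0
    unfold Pτ
    nlinarith [key]
  · have e1 : v x = 0 := image_eq_zero_of_notMem_tsupport hxs
    have e2 : fderiv ℝ v x = 0 := by
      have : (fderiv ℝ v x) = 0 := by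
        by_contra hne
        exact hxs ((support_fderiv_subset ℝ) hne)
      exact this
    rw [e1, e2]
    simp
    positivity

end Pool.Agent.Q196.DE
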