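import Mathlib

set_option autoImplicit false

open scoped Manifold ContDiff
open Module

namespace Pool.Agent.Q196.DE

variable {E : Type*} [NormedAddCommGroup E] [NormedSpace ℝ E]
  {M : Type*} [TopologicalSpace M] [ChartedSpace E M] [IsManifold 𝓘(ℝ, E) ∞ M]

/-- A smooth Riemannian metric on the manifold (without boundary) `M`, modelled on `E`. -/
abbrev Metric (E : Type*) [NormedAddCommGroup E] [NormedSpace ℝ E] (M : Type*)
    [TopologicalSpace M] [ChartedSpace E M] [IsManifold 𝓘(ℝ, E) ∞ M] :=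
  Bundle.ContMDiffRiemannianMetric 𝓘(ℝ, E) ∞ E (fun x : M => TangentSpace 𝓘(ℝ, E) x)

/-- The scalar product `g(v, w)` of two tangent vectors at `x`. -/
noncomputable def ip (g : Metric E M) (x : M) (v w : TangentSpace 𝓘(ℝ, E) x) : ℝ :=
  let G : E →L[ℝ] E →L[ℝ] ℝ := g.inner x
  G v w

/-- The tangent vector with coordinates `v` in the chart `e`, at the point with coordinates `y`:
the image of `v` under the differential of `e⁻¹`. -/
noncomputable def cvec (e : OpenPartialHomeomorph M E) (y v : E) :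
    TangentSpace 𝓘(ℝ, E) (e.symm y) :=
  mfderiv 𝓘(ℝ, E) 𝓘(ℝ, E) e.symm y v

/-- The differential `df` of the function `f` at `x`, on the tangent vector `v`. -/
noncomputable def dif (f : M → ℝ) (x : M) (v : TangentSpace 𝓘(ℝ, E) x) : ℝ :=
  mfderiv 𝓘(ℝ, E) 𝓘(ℝ, ℝ) f x v

variable {n : ℕ} (b : Basis (Fin n) ℝ E)

/-- The matrix `g_{jk} = g(∂_j, ∂_k)` of the metric in the chart `e`, at the point with
coordinates `y`. -/
noncomputable def gram (g : Metric E M) (e : OpenPartialHomeomorph M E) (y : E) :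
    Matrix (Fin n) (Fin n) ℝ :=
  Matrix.of fun j k => ip g (e.symm y) (cvec e y (b j)) (cvec e y (b k))

/-- The partial derivative `∂_j F`. -/
noncomputable def pd (j : Fin n) (F : E → ℝ) (y : E) : ℝ := fderiv ℝ F y (b j)

/-- The Laplace-Beltrami operator in the chart `e`:
`|g|^{-1/2} ∂_j (|g|^{1/2} g^{jk} ∂_k f)`, at the point with coordinates `y`. -/
noncomputable def laplacian (g : Metric E M) (e : OpenPartialHomeomorph M E) (f : M → ℝ)
    (y : E) : ℝ :=
  (√(gram b g e y).det)⁻¹ *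
    ∑ j, pd b j (fun z => √(gram b g e z).det *
      ∑ k, (gram b g e z)⁻¹ j k * pd b k (f ∘ e.symm) z) y

/-- `f` is a smooth solution of `Δ_g f = lam f` (an eigenfunction, or zero). -/
def IsEigenfunction (g : Metric E M) (lam : ℝ) (f : M → ℝ) : Prop :=
  ContMDiff 𝓘(ℝ, E) 𝓘(ℝ, ℝ) ∞ f ∧
    ∀ e ∈ atlas E M, ∀ y ∈ e.target, laplacian b g e f y = lam * f (e.symm y)

/-- The eigenspace: the span of the eigenfunctions. -/
def eigenspace (g : Metric E M) (lam : ℝ) : Submodule ℝ (M → ℝ) :=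
  Submodule.span ℝ {f | IsEigenfunction b g lam f}

/-- The family `u_1, …, u_k` of linearly independent eigenfunctions, with the signs
`ε_1, …, ε_k`, satisfies the two identities `∑ ε_j u_j² = 0` and `∑ ε_j du_j ⊗ du_j = 0`. -/
structure IsDegenerateFamily (g : Metric E M) (lam : ℝ) {k : ℕ} (ε : Fin k → ℝ)
    (u : Fin k → M → ℝ) : Prop where
  sign : ∀ j, ε j = 1 ∨ ε j = -1
  eig : ∀ j, IsEigenfunction b g lam (u j)
  indep : LinearIndependent ℝ u
  sq : ∀ x, ∑ j, ε j * u j x ^ 2 = 0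
  tensor : ∀ (x : M) (v w : TangentSpace 𝓘(ℝ, E) x),
    ∑ j, ε j * (dif (u j) x v * dif (u j) x w) = 0

/-- `lam` is a degenerate eigenvalue: it is nonzero, of multiplicity at least two, and a
nonempty family as above exists. -/
def IsDegenerate (g : Metric E M) (lam : ℝ) : Prop :=
  lam ≠ 0 ∧ 2 ≤ Module.rank ℝ (eigenspace b g lam) ∧
    ∃ (k : ℕ) (ε : Fin k → ℝ) (u : Fin k → M → ℝ), 1 ≤ k ∧ IsDegenerateFamily b g lam ε u

end Pool.Agent.Q196.DE
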