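import Mathlib

set_option autoImplicit false
set_option linter.unusedSectionVars false
set_option maxSynthPendingDepth 3

open MeasureTheory Set Filter Topology
open scoped ContDiff

namespace Pool.Agent.Q196.DE

variable {E : Type*} [NormedAddCommGroup E] [NormedSpace ℝ E]

/-- divergence of a vector field -/
noncomputable def dv (V : E → E) (x : E) : ℝ := LinearMap.trace ℝ E (fderiv ℝ V x).toLinearMap

/-- The differential operator `P f = div (a (df))`. -/
noncomputable def PP (a : E → (E →L[ℝ] ℝ) →L[ℝ] E) (f : E → ℝ) (x : E) : ℝ :=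
  dv (fun y => a y (fderiv ℝ f y)) x

variable [FiniteDimensional ℝ E]

lemma dv_smul {f : E → ℝ} {V : E → E} {x : E} (hf : DifferentiableAt ℝ f x)
    (hV : DifferentiableAt ℝ V x) :
    dv (fun y => f y • V y) x = fderiv ℝ f x (V x) + f x * dv V x := by
  unfold dv
  rw [fderiv_fun_smul hf hV]
  have h1 : (f x • fderiv ℝ V x + (fderiv ℝ f x).smulRight (V x)).toLinearMap =
      f x • (fderiv ℝ V x).toLinearMap +
        (fderiv ℝ f x).toLinearMap.smulRight (V x) := rfl
  rw [h1, map_add, map_smul, LinearMap.trace_smulRight]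
  simp [add_comm]

lemma dv_add {V W : E → E} {x : E} (hV : DifferentiableAt ℝ V x)
    (hW : DifferentiableAt ℝ W x) :
    dv (fun y => V y + W y) x = dv V x + dv W x := by
  unfold dv
  rw [fderiv_fun_add hV hW]
  exact map_add (LinearMap.trace ℝ E) (fderiv ℝ V x).toLinearMap (fderiv ℝ W x).toLinearMap

lemma dv_sub {V W : E → E} {x : E} (hV : DifferentiableAt ℝ V x)
    (hW : DifferentiableAt ℝ W x) :
    dv (fun y => V y - W y) x = dv V x - dv W x := by
  unfold dv
  rw [fderiv_fun_sub hV hW]
  exact map_sub (LinearMap.trace ℝ E) (fderiv ℝ V x).toLinearMap (fderiv ℝ W x).toLinearMap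

variable [MeasurableSpace E] [BorelSpace E] (μ : Measure E) [μ.IsAddHaarMeasure]

/-- the integral of a divergence vanishes -/
lemma integral_dv {V : E → E} (hV : ContDiff ℝ 1 V) (hc : HasCompactSupport V) :
    ∫ x, dv V x ∂μ = 0 := by
  let b := Module.finBasis ℝ E
  let L : ∀ i, E →L[ℝ] ℝ := fun i => LinearMap.toContinuousLinearMap (b.coord i)
  have h1 : ∀ x, dv V x = ∑ i, fderiv ℝ (fun y => L i (V y)) x (b i) := by
    intro x
    unfold dv
    rw [LinearMap.trace_eq_matrix_trace ℝ b]
    simp only [Matrix.trace, Matrix.diag, LinearMap.toMatrix_apply]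
    refine Finset.sum_congr rfl fun i _ => ?_
    have hd : DifferentiableAt ℝ V x := hV.differentiable one_ne_zero x
    have h2 : HasFDerivAt (fun y => L i (V y)) ((L i).comp (fderiv ℝ V x)) x :=
      (L i).hasFDerivAt.comp x hd.hasFDerivAt
    rw [h2.fderiv]
    rfl
  simp only [h1]
  have hint : ∀ i, Integrable (fun x => fderiv ℝ (fun y => L i (V y)) x (b i)) μ ∧
      ∫ x, fderiv ℝ (fun y => L i (V y)) x (b i) ∂μ = 0 := by
    intro i
    have hg : ContDiff ℝ 1 (fun y => L i (V y)) := (L i).contDiff.comp hV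
    have hgc : HasCompactSupport (fun y => L i (V y)) := hc.comp_left (g := L i) (map_zero (L i))
    have hd : Continuous (fun x => fderiv ℝ (fun y => L i (V y)) x (b i)) :=
      (hg.continuous_fderiv one_ne_zero).clm_apply continuous_const
    have hdc : HasCompactSupport (fun x => fderiv ℝ (fun y => L i (V y)) x (b i)) :=
      (hgc.fderiv (𝕜 := ℝ)).comp_left (g := fun φ : E →L[ℝ] ℝ => φ (b i)) (by simp)
    have hi := hd.integrable_of_hasCompactSupport hdc (μ := μ)
    refine ⟨hi, ?_⟩
    have h3 := integral_mul_fderiv_eq_neg_fderiv_mul_of_integrable (μ := μ) (𝕜 := ℝ)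
      (f := fun _ : E => (1 : ℝ)) (g := fun y => L i (V y)) (v := b i)
      (by simp) (by simpa using hi)
      (by simpa using (hg.continuous.integrable_of_hasCompactSupport hgc (μ := μ)))
      (by intro x _; fun_prop) (fun x _ => hg.differentiable one_ne_zero x)
    simpa using h3
  rw [integral_finsetSum _ fun i _ => (hint i).1]
  exact Finset.sum_eq_zero fun i _ => (hint i).2

end Pool.Agent.Q196.DE
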