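import Pool.Agent.Q196.DE.Mfd

set_option autoImplicit false
set_option linter.unusedSectionVars false
set_option maxSynthPendingDepth 3

open Set Filter Topology Module
open scoped Manifold ContDiff

namespace Pool.Agent.Q196.DE

section lin

variable {E : Type*} [NormedAddCommGroup E] [NormedSpace ℝ E] [FiniteDimensional ℝ E]

lemma dv_sum {k : ℕ} (c : Fin k → ℝ) {V : Fin k → E → E} {x : E}
    (hV : ∀ j, DifferentiableAt ℝ (V j) x) :
    dv (fun z => ∑ j, c j • V j z) x = ∑ j, c j * dv (V j) x := by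
  have h1 : HasFDerivAt (fun z => ∑ j, c j • V j z) (∑ j, c j • fderiv ℝ (V j) x) x :=
    HasFDerivAt.fun_sum fun j _ => (hV j).hasFDerivAt.const_smul (c j)
  unfold dv
  rw [h1.fderiv]
  have h2 : (∑ j, c j • fderiv ℝ (V j) x).toLinearMap =
      ∑ j, c j • (fderiv ℝ (V j) x).toLinearMap := by
    ext t
    simp
  rw [h2, map_sum]
  simp

lemma PP_sum {k : ℕ} (c : Fin k → ℝ) {a : E → (E →L[ℝ] ℝ) →L[ℝ] E} {f : Fin k → E → ℝ} {x : E}
    (ha : DifferentiableAt ℝ a x) (hf : ∀ j, ContDiffAt ℝ ∞ (f j) x) :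
    PP a (fun y => ∑ j, c j * f j y) x = ∑ j, c j * PP a (f j) x := by
  have hV : ∀ j, DifferentiableAt ℝ (fun y => a y (fderiv ℝ (f j) y)) x := fun j =>
    ha.clm_apply ((w1_cd (hf j)).differentiableAt (by simp))
  have hev : ∀ᶠ y in 𝓝 x, ∀ j, DifferentiableAt ℝ (f j) y := by
    rw [eventually_all]
    intro j
    have h00 : ContDiffAt ℝ 1 (f j) x := (hf j).of_le (by simp)
    exact (h00.eventually (by simp)).mono fun y hy => hy.differentiableAt (by simp)
  unfold PP
  rw [← dv_sum c hV]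
  refine dv_congr ?_
  filter_upwards [hev] with y hy
  have h1 : HasFDerivAt (fun z => ∑ j, c j * f j z) (∑ j, c j • fderiv ℝ (f j) y) y :=
    HasFDerivAt.fun_sum fun j _ => (hy j).hasFDerivAt.const_mul (c j)
  rw [h1.fderiv, map_sum]
  simp

end lin

variable {E : Type*} [NormedAddCommGroup E] [InnerProductSpace ℝ E] [FiniteDimensional ℝ E]
  {M : Type*} [TopologicalSpace M] [ChartedSpace E M] [IsManifold 𝓘(ℝ, E) ∞ M]
  {n : ℕ} {b : Basis (Fin n) ℝ E}

/-- solutions in the divergence form -/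
def Sol (b : Basis (Fin n) ℝ E) (g : Metric E M) (lam : ℝ) (f : M → ℝ) : Prop :=
  ContMDiff 𝓘(ℝ, E) 𝓘(ℝ, ℝ) ∞ f ∧
    ∀ e ∈ atlas E M, ∀ y ∈ e.target,
      PP (aa b g e) (f ∘ e.symm) y = (√(gram b g e y).det * lam) * f (e.symm y)

lemma smooth_chart {f : M → ℝ} (hf : ContMDiff 𝓘(ℝ, E) 𝓘(ℝ, ℝ) ∞ f)
    {e : OpenPartialHomeomorph M E}
    (he : e ∈ atlas E M) : ContDiffOn ℝ ∞ (f ∘ e.symm) e.target :=
  (hf.comp_contMDiffOn (symm_smooth he)).contDiffOn

lemma IsEigenfunction.sol {g : Metric E M} {lam : ℝ} {f : M → ℝ} (hf : IsEigenfunction b g lam f) :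
    Sol b g lam f := by
  refine ⟨hf.1, fun e he y hy => ?_⟩
  rw [PP_lap b g he (smooth_chart hf.1 he) hy, hf.2 e he y hy]
  ring

lemma Sol.lin {g : Metric E M} {lam : ℝ} {k : ℕ} (c : Fin k → ℝ) {f : Fin k → M → ℝ}
    (hf : ∀ j, Sol b g lam (f j)) : Sol b g lam (fun m => ∑ j, c j * f j m) := by
  refine ⟨?_, fun e he y hy => ?_⟩
  · refine contMDiff_finsetSum (t := Finset.univ) (f := fun j m => c j * f j m)
      fun j _ => ?_
    exact contMDiff_const.mul (hf j).1
  · have ha : DifferentiableAt ℝ (aa b g e) y :=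
      ((aa_smooth b g he).contDiffAt (e.open_target.mem_nhds hy)).differentiableAt (by simp)
    have hfj : ∀ j, ContDiffAt ℝ ∞ (f j ∘ e.symm) y := fun j =>
      (smooth_chart (hf j).1 he).contDiffAt (e.open_target.mem_nhds hy)
    have h1 := PP_sum c ha hfj
    have h2 : ((fun m => ∑ j, c j * f j m) ∘ e.symm) = fun y => ∑ j, c j * (f j ∘ e.symm) y := rfl
    rw [h2, h1, Finset.mul_sum]
    refine Finset.sum_congr rfl fun j _ => ?_
    rw [(hf j).2 e he y hy]
    ring

/-- weak unique continuation on a connected manifold -/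
theorem Sol.ucp [ConnectedSpace M] {g : Metric E M} {lam : ℝ} {f : M → ℝ} (hf : Sol b g lam f)
    {m0 : M} (h0 : ∀ᶠ m in 𝓝 m0, f m = 0) : ∀ m, f m = 0 := by
  let Z : Set M := {m | ∀ᶠ m' in 𝓝 m, f m' = 0}
  have hZo : IsOpen Z := isOpen_setOf_eventually_nhds
  have hZc : IsClosed Z := by
    rw [← closure_subset_iff_isClosed]
    intro q hq
    let e := chartAt E q
    have he : e ∈ atlas E M := chart_mem_atlas _ q
    have hqs : q ∈ e.source := mem_chart_source _ q
    have hy0 : e q ∈ e.target := e.map_source hqs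
    obtain ⟨R, hR, hball⟩ := Metric.isOpen_iff.1 e.open_target (e q) hy0
    have hnb : e.source ∩ e ⁻¹' (Metric.ball (e q) (R / 2)) ∈ 𝓝 q :=
      (e.isOpen_inter_preimage Metric.isOpen_ball).mem_nhds
        ⟨hqs, Metric.mem_ball_self (by positivity)⟩
    obtain ⟨z, ⟨hzs, hzb⟩, hzZ⟩ := mem_closure_iff_nhds.1 hq _ hnb
    have hzb' : e z ∈ Metric.ball (e q) (R / 2) := hzb
    rw [Metric.mem_ball] at hzb'
    have hzt : e z ∈ e.target := e.map_source hzs
    have hF0 : ∀ᶠ x in 𝓝 (e z), (f ∘ e.symm) x = 0 := by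
      have hc : Tendsto e.symm (𝓝 (e z)) (𝓝 z) := by
        have := (e.continuousAt_symm hzt).tendsto
        rwa [e.left_inv hzs] at this
      exact hc.eventually hzZ
    have hsub : Metric.ball (e z) (R / 2) ⊆ e.target := by
      refine Subset.trans ?_ hball
      intro x hx
      rw [Metric.mem_ball] at hx ⊢
      calc dist x (e q) ≤ dist x (e z) + dist (e z) (e q) := dist_triangle _ _ _
        _ < R := by linarith
    have hPf : ∀ y ∈ e.target, ∃ C : ℝ, ∀ᶠ x in 𝓝 y, |PP (aa b g e) (f ∘ e.symm) x| ≤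
        C * |(f ∘ e.symm) x| := by
      intro y hy
      have hcont : ContinuousAt (fun x => |√(gram b g e x).det * lam|) y := by
        have h1 : ContinuousAt (fun x => (gram b g e x).det) y :=
          ((det_smooth (gram_smooth b g he)).contDiffAt (e.open_target.mem_nhds hy)).continuousAt
        exact ((h1.sqrt).mul continuousAt_const).abs
      refine ⟨|√(gram b g e y).det * lam| + 1, ?_⟩
      filter_upwards [ev_le hcont (lt_add_one _), e.open_target.mem_nhds hy] with x hx hxt
      rw [hf.2 e he x hxt, abs_mul]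
      exact mul_le_mul_of_nonneg_right hx (abs_nonneg _)
    have hball0 := ucp_ball e.open_target (aa_ell b g he) (smooth_chart hf.1 he) hsub hPf hF0
    have hqb : e q ∈ Metric.ball (e z) (R / 2) := by
      rw [Metric.mem_ball, dist_comm]
      exact hzb'
    have hnq : e.source ∩ e ⁻¹' (Metric.ball (e z) (R / 2)) ∈ 𝓝 q :=
      (e.isOpen_inter_preimage Metric.isOpen_ball).mem_nhds ⟨hqs, hqb⟩
    change ∀ᶠ m' in 𝓝 q, f m' = 0
    filter_upwards [hnq] with m' hm'
    have h3 := hball0 (e m') hm'.2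
    rwa [Function.comp_apply, e.left_inv hm'.1] at h3
  have hZu : Z = univ := IsClopen.eq_univ ⟨hZc, hZo⟩ ⟨m0, h0⟩
  intro m
  have hm : m ∈ Z := hZu ▸ mem_univ m
  exact (show ∀ᶠ m' in 𝓝 m, f m' = 0 from hm).self_of_nhds

/-- the bilinear form with signs `ε` -/
noncomputable def eta {k : ℕ} (ε : Fin k → ℝ) : (Fin k → ℝ) →L[ℝ] (Fin k → ℝ) →L[ℝ] ℝ :=
  ∑ j, ε j • ((ContinuousLinearMap.proj (R := ℝ) (φ := fun _ : Fin k => ℝ) j).smulRight
    (ContinuousLinearMap.proj (R := ℝ) (φ := fun _ : Fin k => ℝ) j))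

lemma eta_apply {k : ℕ} (ε a b : Fin k → ℝ) : eta ε a b = ∑ j, ε j * (a j * b j) := by
  simp [eta]

/-- a family cannot have at most three plus signs -/
theorem no_three [ConnectedSpace M] {g : Metric E M} {lam : ℝ} {k : ℕ} (hk : 1 ≤ k)
    {ε : Fin k → ℝ} {u : Fin k → M → ℝ} (h : IsDegenerateFamily b g lam ε u)
    (h3 : (Finset.univ.filter fun j => ε j = 1).card ≤ 3) : False := by
  classical
  obtain ⟨j0⟩ : Nonempty (Fin k) := ⟨⟨0, hk⟩⟩
  obtain ⟨m, hm⟩ : ∃ m, u j0 m ≠ 0 := by
    by_contra hno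
    push Not at hno
    exact h.indep.ne_zero j0 (funext hno)
  let e := chartAt E m
  have he : e ∈ atlas E M := chart_mem_atlas _ m
  have hms : m ∈ e.source := mem_chart_source _ m
  let w : E → (Fin k → ℝ) := fun y j => u j (e.symm y)
  have hsol : ∀ j, Sol b g lam (u j) := fun j => (h.eig j).sol
  have hw : ContDiffOn ℝ ∞ w e.target := contDiffOn_pi.2 fun j => smooth_chart (hsol j).1 he
  let U : Set E := e.target ∩ w ⁻¹' {0}ᶜ
  have hU : IsOpen U := hw.continuousOn.isOpen_inter_preimage e.open_target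
    isOpen_compl_singleton
  have hUt : U ⊆ e.target := inter_subset_left
  have hne : U.Nonempty := by
    refine ⟨e m, e.map_source hms, ?_⟩
    intro h0
    apply hm
    have h1 : w (e m) = 0 := h0
    have h2 : u j0 (e.symm (e m)) = 0 := congrFun h1 j0
    rwa [e.left_inv hms] at h2
  have hcd : ∀ y ∈ e.target, ContDiffAt ℝ ∞ w y := fun y hy =>
    hw.contDiffAt (e.open_target.mem_nhds hy)
  have hη : ∀ a b, eta ε a b = eta ε b a := by
    intro a b
    rw [eta_apply, eta_apply]
    exact Finset.sum_congr rfl fun j _ => by ring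
  have h1 : ∀ x ∈ U, eta ε (w x) (w x) = 0 := by
    intro x _
    rw [eta_apply, ← h.sq (e.symm x)]
    exact Finset.sum_congr rfl fun j _ => by ring
  have hdw : ∀ y ∈ e.target, ∀ ξ j, fderiv ℝ w y ξ j =
      dif (u j) (e.symm y) (cvec e y ξ) := by
    intro y hy ξ j
    have h2 : HasFDerivAt w (fderiv ℝ w y) y :=
      ((hcd y hy).differentiableAt (by simp)).hasFDerivAt
    have h3 := (hasFDerivAt_pi'.1 h2 j).fderiv
    have h4 : fderiv ℝ (fun z => w z j) y ξ = fderiv ℝ w y ξ j := by
      rw [h3]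
      rfl
    rw [← h4]
    have h5 : MDifferentiableAt 𝓘(ℝ, E) 𝓘(ℝ, ℝ) (u j) (e.symm y) :=
      ((h.eig j).1 (e.symm y)).mdifferentiableAt (by simp)
    have h6 : MDifferentiableAt 𝓘(ℝ, E) 𝓘(ℝ, E) e.symm y :=
      ((symm_smooth he).contMDiffAt (e.open_target.mem_nhds hy)).mdifferentiableAt (by simp)
    have h7 := mfderiv_comp y h5 h6
    rw [mfderiv_eq_fderiv] at h7
    exact DFunLike.congr_fun h7 ξ
  have h2 : ∀ x ∈ U, ∀ ξ ζ, eta ε (fderiv ℝ w x ξ) (fderiv ℝ w x ζ) = 0 := by
    intro x hx ξ ζ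
    rw [eta_apply]
    simp only [hdw x (hUt hx)]
    exact h.tensor (e.symm x) _ _
  have htr : ∀ x ∈ U, Tr w x := by
    intro x hx
    have hxt := hUt hx
    have hell := aa_ell b g he
    refine tr_of_eq (a := aa b g e) (r := √(gram b g e x).det * lam)
      ((hell.smooth.contDiffAt (e.open_target.mem_nhds hxt)).differentiableAt (by simp))
      (hell.symm x hxt) (hell.pos x hxt) (hcd x hxt) fun j => ?_
    exact (hsol j).2 e he x hxt
  -- the negative definite subspace
  let P := {j : Fin k // ε j = 1}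
  let R : (Fin k → ℝ) →ₗ[ℝ] (P → ℝ) :=
    { toFun := fun v j => v j.1
      map_add' := fun _ _ => rfl
      map_smul' := fun _ _ => rfl }
  have hneg : ∀ v ∈ LinearMap.ker R, v ≠ 0 → eta ε v v < 0 := by
    intro v hv hv0
    have hvz : ∀ j, ε j = 1 → v j = 0 := fun j hj => congrFun hv (⟨j, hj⟩ : P)
    rw [eta_apply]
    obtain ⟨i, hi⟩ : ∃ i, v i ≠ 0 := by
      by_contra hno
      push Not at hno
      exact hv0 (funext hno)
    have hle : ∀ j ∈ Finset.univ, ε j * (v j * v j) ≤ 0 := by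
      intro j _
      rcases h.sign j with hj | hj
      · rw [hvz j hj]
        simp
      · rw [hj]
        nlinarith [mul_self_nonneg (v j)]
    refine Finset.sum_neg' hle ⟨i, Finset.mem_univ _, ?_⟩
    rcases h.sign i with hj | hj
    · exact absurd (hvz i hj) hi
    · rw [hj]
      nlinarith [mul_self_pos.2 hi]
  have hdim : Module.finrank ℝ (Fin k → ℝ) ≤ 3 + Module.finrank ℝ (LinearMap.ker R) := by
    have h4 := R.finrank_range_add_finrank_ker
    have h5 : Module.finrank ℝ (LinearMap.range R) ≤ Module.finrank ℝ (P → ℝ) :=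
      Submodule.finrank_le _
    have h6 : Module.finrank ℝ (P → ℝ) = Fintype.card P := Module.finrank_fintype_fun_eq_card ℝ
    have h7 : Fintype.card P = (Finset.univ.filter fun j => ε j = 1).card :=
      Fintype.card_subtype _
    omega
  have hnd : ∃ z, eta ε z z ≠ 0 := by
    refine ⟨Pi.single j0 1, ?_⟩
    rw [eta_apply, Finset.sum_eq_single j0]
    · rcases h.sign j0 with hj | hj <;> simp [hj]
    · intro b _ hb
      simp [Pi.single_apply, hb]
    · intro hno
      exact absurd (Finset.mem_univ _) hno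
  obtain ⟨x0, hx0, l, hl, hlev⟩ := local_relation (eta ε) hη hU hne (hw.mono hUt)
    (fun x hx => hx.2) h1 h2 htr hneg hdim hnd
  -- the linear relation
  let c : Fin k → ℝ := fun j => l (Pi.single j 1)
  have hlc : ∀ v : Fin k → ℝ, l v = ∑ j, c j * v j := by
    intro v
    have hv : v = ∑ j, v j • (Pi.single j (1 : ℝ) : Fin k → ℝ) := by
      funext i
      simp [Finset.sum_apply, Pi.single_apply]
    conv_lhs => rw [hv]
    rw [map_sum]
    refine Finset.sum_congr rfl fun j _ => ?_
    rw [map_smul, smul_eq_mul, mul_comm]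
  have hf := Sol.lin (g := g) (lam := lam) c hsol
  have hx0t : x0 ∈ e.target := hUt hx0
  have hf0 : ∀ᶠ m' in 𝓝 (e.symm x0), (fun m => ∑ j, c j * u j m) m' = 0 := by
    have hs0 : e.symm x0 ∈ e.source := e.map_target hx0t
    have hc : Tendsto e (𝓝 (e.symm x0)) (𝓝 x0) := by
      have := (e.continuousAt hs0).tendsto
      rwa [e.right_inv hx0t] at this
    filter_upwards [hc.eventually hlev, e.open_source.mem_nhds hs0] with m' hm' hms'
    rw [hlc] at hm'
    simp only [w, e.left_inv hms'] at hm'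
    exact hm'
  have hall := hf.ucp hf0
  have hcz : ∀ j, c j = 0 := by
    refine Fintype.linearIndependent_iff.1 h.indep c ?_
    funext m'
    simpa using hall m'
  apply hl
  ext v
  rw [hlc]
  simp [hcz]

lemma IsDegenerateFamily.neg {g : Metric E M} {lam : ℝ} {k : ℕ}
    {ε : Fin k → ℝ} {u : Fin k → M → ℝ} (h : IsDegenerateFamily b g lam ε u) :
    IsDegenerateFamily b g lam (fun j => -ε j) u := by
  refine ⟨fun j => ?_, h.eig, h.indep, fun x => ?_, fun x v w => ?_⟩
  · rcases h.sign j with hj | hj <;> simp [hj]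
  · have := h.sq x
    simp only [neg_mul, Finset.sum_neg_distrib, this, neg_zero]
  · have := h.tensor x v w
    simp only [neg_mul, Finset.sum_neg_distrib, this, neg_zero]

/-- **Main theorem.** -/
theorem main [ConnectedSpace M] {g : Metric E M} {lam : ℝ} {k : ℕ} (hk : 1 ≤ k)
    {ε : Fin k → ℝ} {u : Fin k → M → ℝ} (h : IsDegenerateFamily b g lam ε u) :
    4 ≤ (Finset.univ.filter fun j => ε j = 1).card ∧
      4 ≤ (Finset.univ.filter fun j => ε j = -1).card := by
  constructor
  · by_contra hlt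
    exact no_three hk h (by omega)
  · by_contra hlt
    refine no_three hk h.neg ?_
    have : (Finset.univ.filter fun j => -ε j = 1) = Finset.univ.filter fun j => ε j = -1 := by
      ext j
      simp [neg_eq_iff_eq_neg]
    rw [this]
    omega

theorem main_rank [ConnectedSpace M] {g : Metric E M} {lam : ℝ} (h : IsDegenerate b g lam) :
    8 ≤ Module.rank ℝ (eigenspace b g lam) := by
  obtain ⟨-, -, k, ε, u, hk, hfam⟩ := h
  obtain ⟨h1, h2⟩ := main hk hfam
  have hk8 : 8 ≤ k := by
    have hdis : Disjoint (Finset.univ.filter fun j => ε j = 1)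
        (Finset.univ.filter fun j => ε j = -1) := by
      rw [Finset.disjoint_filter]
      intro j _ hj hj'
      rw [hj] at hj'
      norm_num at hj'
    have h3 := Finset.card_union_of_disjoint hdis
    have h4 : ((Finset.univ.filter fun j => ε j = 1) ∪
        (Finset.univ.filter fun j => ε j = -1)).card ≤ k := by
      have := Finset.card_le_univ ((Finset.univ.filter fun j => ε j = 1) ∪
        (Finset.univ.filter fun j => ε j = -1))
      simpa using this
    omega
  let u' : Fin k → eigenspace b g lam := fun j => ⟨u j, Submodule.subset_span (hfam.eig j)⟩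
  have hli : LinearIndependent ℝ u' := by
    have h5 : (eigenspace b g lam).subtype ∘ u' = u := rfl
    exact LinearIndependent.of_comp (eigenspace b g lam).subtype (h5 ▸ hfam.indep)
  have h6 := hli.cardinal_lift_le_rank
  rw [Cardinal.mk_fin, Cardinal.lift_natCast] at h6
  have h7 : ((8 : ℕ) : Cardinal) ≤ (k : Cardinal) := by exact_mod_cast hk8
  have h8 := h7.trans h6
  have h9 : Cardinal.lift.{0} (Module.rank ℝ (eigenspace b g lam)) =
    Module.rank ℝ (eigenspace b g lam) := Cardinal.lift_id' _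
  rw [h9] at h8
  exact_mod_cast h8

end Pool.Agent.Q196.DE
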