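import Mathlib

set_option autoImplicit false
set_option linter.unusedSectionVars false
set_option maxSynthPendingDepth 3

open Set Filter Topology
open scoped ContDiff

namespace Pool.Agent.Q196.DE

variable {E : Type*} [NormedAddCommGroup E] [NormedSpace ℝ E] [FiniteDimensional ℝ E]
  {V : Type*} [NormedAddCommGroup V] [NormedSpace ℝ V] [FiniteDimensional ℝ V]

/-- the map `(c, ξ) ↦ c u(x) + Du(x) ξ` -/
noncomputable def Phi (u : E → V) (x : E) : ℝ × E →L[ℝ] V :=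
  (ContinuousLinearMap.fst ℝ ℝ E).smulRight (u x) +
    (fderiv ℝ u x).comp (ContinuousLinearMap.snd ℝ ℝ E)

lemma Phi_apply (u : E → V) (x : E) (c : ℝ) (ξ : E) :
    Phi u x (c, ξ) = c • u x + fderiv ℝ u x ξ := by
  simp [Phi]

/-- the span of `u(x)` and the image of `Du(x)` -/
noncomputable def LL (u : E → V) (x : E) : Submodule ℝ V := LinearMap.range (Phi u x).toLinearMap

lemma u_mem (u : E → V) (x : E) : u x ∈ LL u x :=
  ⟨(1, 0), by simp [Phi_apply]⟩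

lemma du_mem (u : E → V) (x ξ : E) : fderiv ℝ u x ξ ∈ LL u x :=
  ⟨(0, ξ), by simp [Phi_apply]⟩

lemma LL_le {u : E → V} {x : E} {S : Submodule ℝ V} (h1 : u x ∈ S)
    (h2 : ∀ ξ, fderiv ℝ u x ξ ∈ S) : LL u x ≤ S := by
  rintro _ ⟨⟨c, ξ⟩, rfl⟩
  simp only [ContinuousLinearMap.coe_coe, Phi_apply]
  exact S.add_mem (S.smul_mem _ h1) (h2 ξ)

/-- second derivative -/
noncomputable def w2 (u : E → V) : E → E →L[ℝ] E →L[ℝ] V := fderiv ℝ (fderiv ℝ u)
/-- third derivative -/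
noncomputable def w3 (u : E → V) : E → E →L[ℝ] E →L[ℝ] E →L[ℝ] V := fderiv ℝ (w2 u)

lemma two_le : minSmoothness ℝ 2 ≤ (∞ : WithTop ℕ∞) := by
  simp only [minSmoothness_of_isRCLikeNormedField]
  exact WithTop.coe_le_coe.2 (le_top : (2 : ℕ∞) ≤ ⊤)

lemma w1_cd {u : E → V} {x : E} (hu : ContDiffAt ℝ ∞ u x) : ContDiffAt ℝ ∞ (fderiv ℝ u) x :=
  hu.fderiv_right (m := ∞) (by simp)

lemma w2_cd {u : E → V} {x : E} (hu : ContDiffAt ℝ ∞ u x) : ContDiffAt ℝ ∞ (w2 u) x :=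
  (w1_cd hu).fderiv_right (m := ∞) (by simp)

lemma w2_symm {u : E → V} {x : E} (hu : ContDiffAt ℝ ∞ u x) (ξ ζ : E) :
    w2 u x ξ ζ = w2 u x ζ ξ := by
  have h : IsSymmSndFDerivAt ℝ u x := hu.isSymmSndFDerivAt two_le
  exact h ξ ζ

lemma w3_symm {u : E → V} {x : E} (hu : ContDiffAt ℝ ∞ u x) (σ ξ : E) :
    w3 u x σ ξ = w3 u x ξ σ := by
  have h : IsSymmSndFDerivAt ℝ (fderiv ℝ u) x := (w1_cd hu).isSymmSndFDerivAt two_le
  exact h σ ξ

lemma fderiv_du {u : E → V} {x : E} (hu : ContDiffAt ℝ ∞ u x) (ξ : E) :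
    DifferentiableAt ℝ (fun y => fderiv ℝ u y ξ) x ∧
      ∀ ζ, fderiv ℝ (fun y => fderiv ℝ u y ξ) x ζ = w2 u x ζ ξ := by
  have h1 : DifferentiableAt ℝ (fderiv ℝ u) x := (w1_cd hu).differentiableAt (by simp)
  have h2 := h1.hasFDerivAt.clm_apply (hasFDerivAt_const ξ x)
  refine ⟨h2.differentiableAt, fun ζ => ?_⟩
  rw [h2.fderiv]
  simp [w2]

lemma fderiv_w2 {u : E → V} {x : E} (hu : ContDiffAt ℝ ∞ u x) (ξ κ : E) :
    DifferentiableAt ℝ (fun y => w2 u y ξ κ) x ∧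
      ∀ ζ, fderiv ℝ (fun y => w2 u y ξ κ) x ζ = w3 u x ζ ξ κ := by
  have h1 : DifferentiableAt ℝ (w2 u) x := (w2_cd hu).differentiableAt (by simp)
  have h2 := h1.hasFDerivAt.clm_apply (hasFDerivAt_const ξ x)
  have h3 := h2.clm_apply (hasFDerivAt_const κ x)
  refine ⟨h3.differentiableAt, fun ζ => ?_⟩
  rw [h3.fderiv]
  simp [w3]

section iso

variable (η : V →L[ℝ] V →L[ℝ] ℝ) (hη : ∀ a b, η a b = η b a)

lemma bil_deriv {f g : E → V} {x : E} (hf : DifferentiableAt ℝ f x)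
    (hg : DifferentiableAt ℝ g x) (h0 : ∀ᶠ y in 𝓝 x, η (f y) (g y) = 0) (ζ : E) :
    η (f x) (fderiv ℝ g x ζ) + η (fderiv ℝ f x ζ) (g x) = 0 := by
  have h1 := η.hasFDerivAt_of_bilinear hf.hasFDerivAt hg.hasFDerivAt
  have h2 : HasFDerivAt (fun y => η (f y) (g y)) (0 : E →L[ℝ] ℝ) x := by
    refine (hasFDerivAt_const (0 : ℝ) x).congr_of_eventuallyEq ?_
    filter_upwards [h0] with y hy using hy
  have h3 := congrArg (fun T : E →L[ℝ] ℝ => T ζ) (h1.unique h2)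
  simpa using h3

variable {u : E → V} {U : Set E} (hU : IsOpen U) (hu : ContDiffOn ℝ ∞ u U)
  (h1 : ∀ x ∈ U, η (u x) (u x) = 0)
  (h2 : ∀ x ∈ U, ∀ ξ ζ, η (fderiv ℝ u x ξ) (fderiv ℝ u x ζ) = 0)

include hU hu in
lemma cdAt {x : E} (hx : x ∈ U) : ContDiffAt ℝ ∞ u x := hu.contDiffAt (hU.mem_nhds hx)

include hη hU hu h1 in
lemma isoA {x : E} (hx : x ∈ U) (ξ : E) : η (u x) (fderiv ℝ u x ξ) = 0 := by
  have hd : DifferentiableAt ℝ u x := (cdAt hU hu hx).differentiableAt (by simp)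
  have h3 := bil_deriv η hd hd (by filter_upwards [hU.mem_nhds hx] with y hy using h1 y hy) ξ
  rw [hη (fderiv ℝ u x ξ) (u x)] at h3
  linarith

include hη hU hu h1 h2 in
lemma iso_LL {x : E} (hx : x ∈ U) : ∀ a ∈ LL u x, ∀ b ∈ LL u x, η a b = 0 := by
  rintro _ ⟨⟨c, ξ⟩, rfl⟩ _ ⟨⟨d, ζ⟩, rfl⟩
  simp only [ContinuousLinearMap.coe_coe, Phi_apply, map_add, map_smul, _root_.add_apply,
    _root_.smul_apply, smul_eq_mul, h1 x hx, h2 x hx, isoA η hη hU hu h1 hx,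
    hη (fderiv ℝ u x ξ) (u x)]
  simp

include hη hU hu h2 in
lemma isoB {x : E} (hx : x ∈ U) (ζ ξ κ : E) : η (w2 u x ζ ξ) (fderiv ℝ u x κ) = 0 := by
  have hc := cdAt hU hu hx
  have key : ∀ ζ ξ κ, η (w2 u x ζ ξ) (fderiv ℝ u x κ) = - η (w2 u x ζ κ) (fderiv ℝ u x ξ) := by
    intro ζ ξ κ
    have h3 := bil_deriv η (fderiv_du hc ξ).1 (fderiv_du hc κ).1
      (by filter_upwards [hU.mem_nhds hx] with y hy using h2 y hy ξ κ) ζ
    rw [(fderiv_du hc ξ).2, (fderiv_du hc κ).2, hη (fderiv ℝ u x ξ)] at h3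
    linarith
  have e1 := key ζ ξ κ
  have e2 := key κ ζ ξ
  have e3 := key ξ κ ζ
  rw [w2_symm hc κ ζ, w2_symm hc κ ξ] at e2
  rw [w2_symm hc ξ ζ] at e3
  linarith

include hη hU hu h1 h2 in
lemma isoC {x : E} (hx : x ∈ U) (ζ ξ : E) : η (w2 u x ζ ξ) (u x) = 0 := by
  have hc := cdAt hU hu hx
  have h3 := bil_deriv η (hc.differentiableAt (by simp)) (fderiv_du hc ξ).1
    (by filter_upwards [hU.mem_nhds hx] with y hy using isoA η hη hU hu h1 hy ξ) ζ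
  rw [(fderiv_du hc ξ).2, h2 x hx, hη (u x)] at h3
  linarith

include hη hU hu h1 h2 in
lemma iso_perp {x : E} (hx : x ∈ U) (ζ ξ : E) : ∀ b ∈ LL u x, η (w2 u x ζ ξ) b = 0 := by
  rintro _ ⟨⟨d, κ⟩, rfl⟩
  simp only [ContinuousLinearMap.coe_coe, Phi_apply, map_add, map_smul, smul_eq_mul,
    isoB η hη hU hu h2 hx, isoC η hη hU hu h1 h2 hx]
  simp

include hη hU hu h2 in
lemma isoD {x : E} (hx : x ∈ U) (ξ ζ σ κ : E) :
    η (w2 u x ξ ζ) (w2 u x σ κ) = η (w2 u x σ ζ) (w2 u x ξ κ) := by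
  have hc := cdAt hU hu hx
  have key : ∀ ξ ζ σ κ, η (w2 u x ξ ζ) (w2 u x σ κ) + η (w3 u x σ ξ ζ) (fderiv ℝ u x κ) = 0 := by
    intro ξ ζ σ κ
    have h3 := bil_deriv η (fderiv_w2 hc ξ ζ).1 (fderiv_du hc κ).1
      (by filter_upwards [hU.mem_nhds hx] with y hy using isoB η hη hU hu h2 hy ξ ζ κ) σ
    rw [(fderiv_w2 hc ξ ζ).2, (fderiv_du hc κ).2] at h3
    exact h3
  have e1 := key ξ ζ σ κ
  have e2 := key σ ζ ξ κ
  rw [w3_symm hc σ ξ] at e1
  linarith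

/-- the trace condition at `x` -/
def Tr (u : E → V) (x : E) : Prop :=
  ∃ (N : ℕ) (c : Fin N → ℝ) (e : Fin N → E), (∀ m, 0 < c m) ∧
    Submodule.span ℝ (range e) = ⊤ ∧ ∑ m, c m • w2 u x (e m) (e m) ∈ LL u x

/-- a maximal isotropic subspace -/
lemma max_iso {Vm L : Submodule ℝ V} (hneg : ∀ v ∈ Vm, v ≠ 0 → η v v < 0)
    (hη : ∀ a b, η a b = η b a)
    (hL : ∀ a ∈ L, ∀ b ∈ L, η a b = 0)
    (hdim : Module.finrank ℝ V ≤ Module.finrank ℝ L + Module.finrank ℝ Vm) {z : V}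
    (hz : ∀ b ∈ L, η z b = 0) (hzz : 0 ≤ η z z) : z ∈ L := by
  by_contra hzL
  set W : Submodule ℝ V := L ⊔ Submodule.span ℝ {z} with hW
  have hLW : L < W := by
    refine lt_of_le_of_ne le_sup_left fun h => hzL ?_
    rw [h]
    exact Submodule.mem_sup_right (Submodule.mem_span_singleton_self z)
  have h3 : Module.finrank ℝ L < Module.finrank ℝ W := Submodule.finrank_lt_finrank_of_lt hLW
  have h4 := Submodule.finrank_sup_add_finrank_inf_eq W Vm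
  have h5 : Module.finrank ℝ (W ⊔ Vm : Submodule ℝ V) ≤ Module.finrank ℝ V :=
    Submodule.finrank_le _
  have h6 : 0 < Module.finrank ℝ (W ⊓ Vm : Submodule ℝ V) := by omega
  have h7 : (W ⊓ Vm : Submodule ℝ V) ≠ ⊥ := by
    intro h
    rw [h, finrank_bot] at h6
    exact lt_irrefl _ h6
  obtain ⟨v, hv, hv0⟩ := Submodule.exists_mem_ne_zero_of_ne_bot h7
  obtain ⟨hvW, hvm⟩ := Submodule.mem_inf.1 hv
  obtain ⟨l, hl, z', hz', rfl⟩ := Submodule.mem_sup.1 hvW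
  obtain ⟨c, rfl⟩ := Submodule.mem_span_singleton.1 hz'
  have h8 := hneg _ hvm hv0
  have h9 : η (l + c • z) (l + c • z) = c ^ 2 * η z z := by
    simp only [map_add, map_smul, _root_.add_apply, _root_.smul_apply, smul_eq_mul,
      hL l hl l hl, hz l hl, hη l z]
    ring
  rw [h9] at h8
  have : 0 ≤ c ^ 2 * η z z := by positivity
  linarith

include hη hU hu h1 h2 in
/-- if `L(x)` is maximal isotropic then the second derivatives lie in it -/
lemma second_mem_max {Vm : Submodule ℝ V} (hneg : ∀ v ∈ Vm, v ≠ 0 → η v v < 0) {x : E}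
    (hx : x ∈ U) (htr : Tr u x)
    (hdim : Module.finrank ℝ V ≤ Module.finrank ℝ (LL u x) + Module.finrank ℝ Vm) (ξ κ : E) :
    w2 u x ξ κ ∈ LL u x := by
  obtain ⟨N, c, e, hc, he, hs⟩ := htr
  have hcd := cdAt hU hu hx
  have hmem : ∀ z, (∀ b ∈ LL u x, η z b = 0) → 0 ≤ η z z → z ∈ LL u x := fun z hz hzz =>
    max_iso η hneg hη (iso_LL η hη hU hu h1 h2 hx) hdim hz hzz
  have hperp := iso_perp η hη hU hu h1 h2 hx
  have hall : ∀ m, w2 u x (e m) κ ∈ LL u x := by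
    have hle : ∀ m, η (w2 u x (e m) κ) (w2 u x (e m) κ) ≤ 0 := by
      intro m
      by_contra h
      push Not at h
      have h3 := hmem _ (hperp (e m) κ) h.le
      have h4 := iso_LL η hη hU hu h1 h2 hx _ h3 _ h3
      linarith
    have hsum : ∑ m, c m * η (w2 u x (e m) κ) (w2 u x (e m) κ) = 0 := by
      have h3 := hperp κ κ _ hs
      rw [map_sum] at h3
      rw [← h3]
      refine Finset.sum_congr rfl fun m _ => ?_
      rw [map_smul, smul_eq_mul]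
      congr 1
      rw [hη (w2 u x κ κ), isoD η hη hU hu h2 hx (e m) (e m) κ κ, w2_symm hcd κ (e m)]
    intro m
    refine hmem _ (hperp (e m) κ) ?_
    have h4 : ∀ i ∈ Finset.univ, c i * η (w2 u x (e i) κ) (w2 u x (e i) κ) ≤ 0 :=
      fun i _ => mul_nonpos_of_nonneg_of_nonpos (hc i).le (hle i)
    have h5 := (Finset.sum_eq_zero_iff_of_nonpos h4).1 hsum m (Finset.mem_univ m)
    rcases mul_eq_zero.1 h5 with h | h
    · exact absurd h (hc m).ne'
    · exact h.ge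
  -- extend linearly
  have hspan : ∀ ξ ∈ Submodule.span ℝ (range e), w2 u x ξ κ ∈ LL u x := by
    intro ξ hξ
    induction hξ using Submodule.span_induction with
    | mem y hy =>
      obtain ⟨m, rfl⟩ := hy
      exact hall m
    | zero => simp
    | add y z _ _ h3 h4 =>
      rw [map_add, _root_.add_apply]
      exact (LL u x).add_mem h3 h4
    | smul r y _ h3 =>
      rw [map_smul, _root_.smul_apply]
      exact (LL u x).smul_mem r h3
  exact hspan ξ (he ▸ Submodule.mem_top)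

end iso

end Pool.Agent.Q196.DE
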