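import Pool.Agent.Q196.DE.Rank

set_option autoImplicit false
set_option linter.unusedSectionVars false
set_option maxSynthPendingDepth 3

open Set Filter Topology
open scoped ContDiff

namespace Pool.Agent.Q196.DE

variable {E : Type*} [NormedAddCommGroup E] [NormedSpace ℝ E] [FiniteDimensional ℝ E]
  {V : Type*} [NormedAddCommGroup V] [NormedSpace ℝ V] [FiniteDimensional ℝ V]

/-- If the second derivatives lie in `L` and the rank is locally maximal at `x0`, functionals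
vanishing on `L(x0)` vanish on `u` near `x0`. -/
lemma const_L {u : E → V} {x0 : E} {O : Set E} (hO : IsOpen O) (hx0 : x0 ∈ O)
    (hu : ∀ x ∈ O, ContDiffAt ℝ ∞ u x)
    (hr : ∀ x ∈ O, Module.finrank ℝ (LL u x) ≤ Module.finrank ℝ (LL u x0))
    (h2 : ∀ x ∈ O, ∀ ζ ξ, w2 u x ζ ξ ∈ LL u x)
    (l : V →L[ℝ] ℝ) (hl : ∀ z ∈ LL u x0, l z = 0) : ∀ᶠ x in 𝓝 x0, l (u x) = 0 := by
  obtain ⟨K, hK, hev⟩ := rank_main (hu x0 hx0)
  have hw2c : ContinuousAt (fun x => ‖w2 u x‖) x0 := (w2_cd (hu x0 hx0)).continuousAt.norm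
  have hB : ∀ᶠ x in 𝓝 x0, ‖w2 u x‖ ≤ ‖w2 u x0‖ + 1 :=
    (hw2c.eventually (gt_mem_nhds (lt_add_one _))).mono fun _ h => le_of_lt h
  set B : ℝ := ‖w2 u x0‖ + 1 with hBd
  have hB0 : 0 ≤ B := by positivity
  obtain ⟨R, hR, hball⟩ := Metric.nhds_basis_ball.eventually_iff.1
    (hev.and (hB.and (hO.mem_nhds hx0 : ∀ᶠ x in 𝓝 x0, x ∈ O)))
  let G : E → ℝ × (E →L[ℝ] ℝ) := fun x => (l (u x), l.comp (fderiv ℝ u x))
  have hG0 : G x0 = 0 := by
    refine Prod.ext (hl _ (u_mem u x0)) ?_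
    ext ξ
    exact hl _ (du_mem u x0 ξ)
  have hGb : ∀ x (w : ℝ × E), |l (Phi u x w)| ≤ 2 * ‖w‖ * ‖G x‖ := by
    rintro x ⟨c, ξ⟩
    have h1 : l (Phi u x (c, ξ)) = c * (G x).1 + (G x).2 ξ := by
      simp [Phi_apply, G]
    have h3 : |(G x).1| ≤ ‖G x‖ := norm_fst_le (G x)
    have h4 : |(G x).2 ξ| ≤ ‖G x‖ * ‖ξ‖ :=
      ((G x).2.le_opNorm ξ).trans (mul_le_mul_of_nonneg_right (norm_snd_le (G x)) (norm_nonneg _))
    have h5 : |c| ≤ ‖(c, ξ)‖ := norm_fst_le (c, ξ)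
    have h6 : ‖ξ‖ ≤ ‖(c, ξ)‖ := norm_snd_le (c, ξ)
    rw [h1]
    refine (abs_add_le _ _).trans ?_
    rw [abs_mul]
    have h7 : |c| * |(G x).1| ≤ ‖(c, ξ)‖ * ‖G x‖ :=
      mul_le_mul h5 h3 (abs_nonneg _) (norm_nonneg _)
    have h8 : ‖G x‖ * ‖ξ‖ ≤ ‖G x‖ * ‖(c, ξ)‖ := mul_le_mul_of_nonneg_left h6 (norm_nonneg _)
    linarith
  filter_upwards [Metric.ball_mem_nhds x0 hR] with x hx
  set v : E := x - x0 with hv
  have hline : ∀ t ∈ Icc (0 : ℝ) 1, x0 + t • v ∈ Metric.ball x0 R := by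
    intro t ht
    rw [Metric.mem_ball, dist_eq_norm, add_sub_cancel_left, norm_smul, Real.norm_of_nonneg ht.1]
    rw [Metric.mem_ball, dist_eq_norm] at hx
    calc t * ‖v‖ ≤ 1 * ‖v‖ := mul_le_mul_of_nonneg_right ht.2 (norm_nonneg _)
      _ < R := by rw [one_mul]; exact hx
  let h : ℝ → ℝ × (E →L[ℝ] ℝ) := fun t => G (x0 + t • v)
  let h' : ℝ → ℝ × (E →L[ℝ] ℝ) := fun t =>
    (l (fderiv ℝ u (x0 + t • v) v), l.comp (w2 u (x0 + t • v) v))
  have hder : ∀ t ∈ Icc (0 : ℝ) 1, HasDerivAt h (h' t) t := by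
    intro t ht
    have hy := hu _ (hball (hline t ht)).2.2
    have hpath : HasDerivAt (fun t : ℝ => x0 + t • v) v t := by
      have := ((hasDerivAt_id t).smul_const v).const_add x0
      simpa using this
    have hd1 : HasFDerivAt u (fderiv ℝ u (x0 + t • v)) (x0 + t • v) :=
      (hy.differentiableAt (by simp)).hasFDerivAt
    have hd2 : HasFDerivAt (fderiv ℝ u) (w2 u (x0 + t • v)) (x0 + t • v) :=
      ((w1_cd hy).differentiableAt (by simp)).hasFDerivAt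
    have e1 := hd1.comp_hasDerivAt t hpath
    have e2 := hd2.comp_hasDerivAt t hpath
    have e3 := l.hasFDerivAt.comp_hasDerivAt t e1
    have e4 := (ContinuousLinearMap.compL ℝ E V ℝ l).hasFDerivAt.comp_hasDerivAt t e2
    exact e3.prodMk e4
  have hbound : ∀ t ∈ Ico (0 : ℝ) 1, ‖h' t‖ ≤ ((2 * K * B + 1) * 2 * ‖v‖) * ‖h t‖ := by
    intro t ht
    have ht' : t ∈ Icc (0 : ℝ) 1 := ⟨ht.1, ht.2.le⟩
    obtain ⟨hk1, hk2, hk3⟩ := hball (hline t ht')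
    set y := x0 + t • v with hy
    have hGn : 0 ≤ ‖G y‖ := norm_nonneg _
    have hc1 : ‖l (fderiv ℝ u y v)‖ ≤ ((2 * K * B + 1) * 2 * ‖v‖) * ‖G y‖ := by
      have h3 := hGb y (0, v)
      rw [Phi_apply, zero_smul, zero_add] at h3
      have h4 : ‖((0 : ℝ), v)‖ = ‖v‖ := by simp
      rw [h4] at h3
      rw [Real.norm_eq_abs]
      refine h3.trans ?_
      have : 0 ≤ 2 * K * B * 2 * ‖v‖ * ‖G y‖ := by positivity
      nlinarith
    have hc2 : ‖l.comp (w2 u y v)‖ ≤ ((2 * K * B + 1) * 2 * ‖v‖) * ‖G y‖ := by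
      refine ContinuousLinearMap.opNorm_le_bound _ (by positivity) fun ξ => ?_
      obtain ⟨w, hw, hwn⟩ := hk1.2 (hr y hk3) (w2 u y v ξ) (h2 y hk3 v ξ)
      have h3 := hGb y w
      rw [hw] at h3
      have h4 : ‖w2 u y v ξ‖ ≤ B * ‖v‖ * ‖ξ‖ :=
        ((w2 u y v).le_opNorm ξ).trans (mul_le_mul_of_nonneg_right
          (((w2 u y).le_opNorm v).trans (mul_le_mul_of_nonneg_right hk2 (norm_nonneg _)))
          (norm_nonneg _))
      have h5 : ‖w‖ ≤ K * (B * ‖v‖ * ‖ξ‖) := hwn.trans (mul_le_mul_of_nonneg_left h4 hK.le)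
      change |l (w2 u y v ξ)| ≤ _
      refine h3.trans ?_
      calc 2 * ‖w‖ * ‖G y‖ ≤ 2 * (K * (B * ‖v‖ * ‖ξ‖)) * ‖G y‖ := by gcongr
        _ ≤ ((2 * K * B + 1) * 2 * ‖v‖) * ‖G y‖ * ‖ξ‖ := by
            have : 0 ≤ (2 * K * B + 2) * ‖v‖ * ‖G y‖ * ‖ξ‖ := by positivity
            nlinarith
    exact max_le hc1 hc2
  have hfin := eq_zero_of_abs_deriv_le_mul_abs_self_of_eq_zero_right (f := h) (f' := h') (a := 0)
    (b := 1) (K := (2 * K * B + 1) * 2 * ‖v‖)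
    (fun t ht => (hder t ht).continuousAt.continuousWithinAt)
    (fun t ht => (hder t ⟨ht.1, ht.2.le⟩).hasDerivWithinAt)
    (by simp only [h, zero_smul, add_zero, hG0]) hbound 1 (by simp)
  have h10 : (h 1).1 = 0 := by rw [hfin]; rfl
  simpa [h, G, hv] using h10

/-- **Local theorem.** -/
theorem local_relation (η : V →L[ℝ] V →L[ℝ] ℝ) (hη : ∀ a b, η a b = η b a) {u : E → V}
    {U : Set E} (hU : IsOpen U) (hne : U.Nonempty) (hu : ContDiffOn ℝ ∞ u U)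
    (hu0 : ∀ x ∈ U, u x ≠ 0)
    (h1 : ∀ x ∈ U, η (u x) (u x) = 0)
    (h2 : ∀ x ∈ U, ∀ ξ ζ, η (fderiv ℝ u x ξ) (fderiv ℝ u x ζ) = 0)
    (htr : ∀ x ∈ U, Tr u x)
    {Vm : Submodule ℝ V} (hneg : ∀ v ∈ Vm, v ≠ 0 → η v v < 0)
    (hdim : Module.finrank ℝ V ≤ 3 + Module.finrank ℝ Vm) (hnd : ∃ z, η z z ≠ 0) :
    ∃ x0 ∈ U, ∃ l : V →L[ℝ] ℝ, l ≠ 0 ∧ ∀ᶠ x in 𝓝 x0, l (u x) = 0 := by
  classical
  -- a point of maximal rank
  obtain ⟨x0, hx0, hmax⟩ : ∃ x0 ∈ U, ∀ x ∈ U,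
      Module.finrank ℝ (LL u x) ≤ Module.finrank ℝ (LL u x0) := by
    let S : Set ℕ := (fun x => Module.finrank ℝ (LL u x)) '' U
    have hS : S.Nonempty := hne.image _
    have hSb : BddAbove S := ⟨Module.finrank ℝ V, by
      rintro _ ⟨x, -, rfl⟩
      exact Submodule.finrank_le _⟩
    obtain ⟨x0, hx0, hx0e⟩ := Nat.sSup_mem hS hSb
    refine ⟨x0, hx0, fun x hx => ?_⟩
    have h := le_csSup hSb ⟨x, hx, rfl⟩
    rw [← hx0e] at h
    exact h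
  have hcd : ∀ x ∈ U, ContDiffAt ℝ ∞ u x := fun x hx => hu.contDiffAt (hU.mem_nhds hx)
  -- near x0 the rank is constant
  obtain ⟨K, hK, hev⟩ := rank_main (hcd x0 hx0)
  have hcst : ∀ᶠ x in 𝓝 x0, x ∈ U ∧ Module.finrank ℝ (LL u x) = Module.finrank ℝ (LL u x0) := by
    filter_upwards [hev, hU.mem_nhds hx0] with x hx hxU
    exact ⟨hxU, le_antisymm (hmax x hxU) hx.1⟩
  obtain ⟨O, hOs, hOo, hxO⟩ := mem_nhds_iff.1 hcst
  have h3 : ∀ x ∈ O, ∀ ζ ξ, w2 u x ζ ξ ∈ LL u x := by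
    intro x hxO' ζ ξ
    obtain ⟨hxU, hrk⟩ := hOs hxO'
    by_cases hle : Module.finrank ℝ (LL u x) ≤ 2
    · refine second_mem_two (hcd x hxU) ?_ hle (hu0 x hxU) (htr x hxU) ζ ξ
      filter_upwards [hU.mem_nhds hxU] with y hy
      rw [hrk]
      exact hmax y hy
    · refine second_mem_max η hη hU hu h1 h2 hneg hxU (htr x hxU) ?_ ζ ξ
      omega
  -- a functional vanishing on L(x0)
  have hLne : LL u x0 ≠ ⊤ := by
    intro h
    obtain ⟨z, hz⟩ := hnd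
    apply hz
    have := iso_LL η hη hU hu h1 h2 hx0
    rw [h] at this
    exact this z Submodule.mem_top z Submodule.mem_top
  obtain ⟨z, hz⟩ : ∃ z, z ∉ LL u x0 := by
    by_contra h
    push Not at h
    exact hLne (eq_top_iff.2 fun z _ => h z)
  obtain ⟨f, hf1, hf2⟩ := Submodule.exists_le_ker_of_notMem hz
  refine ⟨x0, hx0, LinearMap.toContinuousLinearMap f, ?_, ?_⟩
  · intro h
    apply hf1
    have := congrArg (fun T : V →L[ℝ] ℝ => T z) h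
    simpa using this
  · refine const_L hOo hxO (fun x hx => hcd x (hOs hx).1) (fun x hx => (hOs hx).2.le) h3 _ ?_
    intro z hz
    exact hf2 hz

end Pool.Agent.Q196.DE
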