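import Pool.Agent.Q196.DE.Local
import Pool.Agent.Q196.DE.Ball

set_option autoImplicit false
set_option linter.unusedSectionVars false
set_option maxSynthPendingDepth 3

open Set Filter Topology
open scoped ContDiff

namespace Pool.Agent.Q196.DE

variable {E : Type*} [NormedAddCommGroup E] [NormedSpace ℝ E] [FiniteDimensional ℝ E]

/-- diagonalisation of a symmetric positive definite `a : E* → E` -/
lemma exists_diag (a : (E →L[ℝ] ℝ) →L[ℝ] E) (hs : ∀ ξ ζ : E →L[ℝ] ℝ, ζ (a ξ) = ξ (a ζ))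
    (hp : ∀ ξ : E →L[ℝ] ℝ, ξ ≠ 0 → 0 < ξ (a ξ)) :
    ∃ (N : ℕ) (c : Fin N → ℝ) (e : Fin N → E), (∀ m, 0 < c m) ∧
      Submodule.span ℝ (range e) = ⊤ ∧ ∀ ξ : E →L[ℝ] ℝ, a ξ = ∑ m, (c m * ξ (e m)) • e m := by
  let B : LinearMap.BilinForm ℝ (E →L[ℝ] ℝ) := LinearMap.mk₂ ℝ (fun ξ ζ => ξ (a ζ))
    (fun _ _ _ => by simp) (fun _ _ _ => by simp) (fun _ _ _ => by simp) (fun _ _ _ => by simp)
  have hB : ∀ ξ ζ, B ξ ζ = ξ (a ζ) := fun _ _ => rfl
  have hBs : LinearMap.IsSymm B := ⟨fun ξ ζ => by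
    simp only [hB, RingHom.id_apply]
    exact hs ζ ξ⟩
  obtain ⟨b, hb⟩ := LinearMap.BilinForm.exists_orthogonal_basis (K := ℝ)
    (V := E →L[ℝ] ℝ) (B := B) hBs
  have hbo : ∀ i j, i ≠ j → (b i) (a (b j)) = 0 := by
    intro i j hij
    exact hb hij
  have hbp : ∀ i, 0 < (b i) (a (b i)) := fun i => hp _ (b.ne_zero i)
  have hrep : ∀ ξ : E →L[ℝ] ℝ, a ξ =
      ∑ m, (((b m) (a (b m)))⁻¹ * ξ (a (b m))) • a (b m) := by
    intro ξ
    have h1 := b.sum_repr ξ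
    have h2 : ∀ m, ξ (a (b m)) = b.repr ξ m * (b m) (a (b m)) := by
      intro m
      conv_lhs => rw [← h1]
      rw [ContinuousLinearMap.sum_apply, Finset.sum_eq_single m]
      · simp
      · intro j _ hj
        simp [hbo j m hj]
      · intro h
        exact absurd (Finset.mem_univ _) h
    conv_lhs => rw [← h1]
    rw [map_sum]
    refine Finset.sum_congr rfl fun m _ => ?_
    rw [h2 m, map_smul]
    congr 1
    field_simp [(hbp m).ne']
  refine ⟨Module.finrank ℝ (E →L[ℝ] ℝ), fun m => ((b m) (a (b m)))⁻¹, fun m => a (b m),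
    fun m => inv_pos.2 (hbp m), ?_, hrep⟩
  -- span
  by_contra hne
  obtain ⟨z, hz⟩ : ∃ z, z ∉ Submodule.span ℝ (range fun m => a (b m)) := by
    by_contra h
    push Not at h
    exact hne (eq_top_iff.2 fun z _ => h z)
  obtain ⟨f, hf1, hf2⟩ := Submodule.exists_le_ker_of_notMem hz
  set ξ : E →L[ℝ] ℝ := LinearMap.toContinuousLinearMap f with hξ
  have h3 : ∀ m, ξ (a (b m)) = 0 := fun m => hf2 (Submodule.subset_span ⟨m, rfl⟩)
  have h4 : a ξ = 0 := by
    rw [hrep ξ]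
    simp [h3]
  have h5 : ξ = 0 := by
    by_contra h
    have := hp ξ h
    rw [h4, map_zero] at this
    exact lt_irrefl _ this
  apply hf1
  have := congrArg (fun T : E →L[ℝ] ℝ => T z) h5
  simpa [hξ] using this

/-- reflexivity -/
lemma exists_vec (θ : (E →L[ℝ] ℝ) →ₗ[ℝ] ℝ) : ∃ z : E, ∀ ξ : E →L[ℝ] ℝ, θ ξ = ξ z := by
  let b := Module.finBasis ℝ E
  let c : Fin (Module.finrank ℝ E) → (E →L[ℝ] ℝ) := fun j =>
    LinearMap.toContinuousLinearMap (b.coord j)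
  refine ⟨∑ j, θ (c j) • b j, fun ξ => ?_⟩
  have h1 : ξ = ∑ j, ξ (b j) • c j := by
    ext x
    conv_lhs => rw [← b.sum_repr x]
    rw [map_sum, ContinuousLinearMap.sum_apply]
    refine Finset.sum_congr rfl fun j _ => ?_
    simp [c, mul_comm]
  conv_lhs => rw [h1]
  rw [map_sum, map_sum]
  refine Finset.sum_congr rfl fun j _ => ?_
  simp [mul_comm]

/-- second order expansion of `P` -/
lemma PP_expand {a : E → (E →L[ℝ] ℝ) →L[ℝ] E} {x : E} (ha : DifferentiableAt ℝ a x)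
    (hs : ∀ ξ ζ : E →L[ℝ] ℝ, ζ (a x ξ) = ξ (a x ζ))
    (hp : ∀ ξ : E →L[ℝ] ℝ, ξ ≠ 0 → 0 < ξ (a x ξ)) :
    ∃ (z : E) (N : ℕ) (c : Fin N → ℝ) (e : Fin N → E), (∀ m, 0 < c m) ∧
      Submodule.span ℝ (range e) = ⊤ ∧ ∀ f : E → ℝ, ContDiffAt ℝ ∞ f x →
        PP a f x = fderiv ℝ f x z + ∑ m, c m * w2 f x (e m) (e m) := by
  obtain ⟨N, c, e, hc, he, hrep⟩ := exists_diag (a x) hs hp
  let θ : (E →L[ℝ] ℝ) →ₗ[ℝ] ℝ :=
    { toFun := fun ξ => LinearMap.trace ℝ E ((fderiv ℝ a x).flip ξ).toLinearMap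
      map_add' := fun ξ ζ => by
        rw [map_add]
        exact map_add (LinearMap.trace ℝ E) ((fderiv ℝ a x).flip ξ).toLinearMap
          ((fderiv ℝ a x).flip ζ).toLinearMap
      map_smul' := fun r ξ => by
        rw [map_smul]
        exact map_smul (LinearMap.trace ℝ E) r ((fderiv ℝ a x).flip ξ).toLinearMap }
  obtain ⟨z, hz⟩ := exists_vec θ
  refine ⟨z, N, c, e, hc, he, fun f hf => ?_⟩
  have h1 : DifferentiableAt ℝ (fderiv ℝ f) x := (w1_cd hf).differentiableAt (by simp)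
  have h3 := (ha.hasFDerivAt.clm_apply h1.hasFDerivAt).fderiv
  unfold PP dv
  rw [h3, ← hz (fderiv ℝ f x)]
  have h4 : ((a x).comp (fderiv ℝ (fderiv ℝ f) x) + (fderiv ℝ a x).flip (fderiv ℝ f x)).toLinearMap =
      ((fderiv ℝ a x).flip (fderiv ℝ f x)).toLinearMap +
        ∑ m, (c m • ((ContinuousLinearMap.apply ℝ ℝ (e m)).comp
          (fderiv ℝ (fderiv ℝ f) x)).toLinearMap).smulRight (e m) := by
    ext t
    simp only [ContinuousLinearMap.coe_coe, _root_.add_apply, ContinuousLinearMap.comp_apply,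
      ContinuousLinearMap.flip_apply, LinearMap.add_apply, LinearMap.sum_apply,
      LinearMap.smulRight_apply, LinearMap.smul_apply, ContinuousLinearMap.apply_apply,
      hrep, smul_eq_mul]
    rw [add_comm]
  rw [h4, map_add, map_sum]
  congr 1
  refine Finset.sum_congr rfl fun m _ => ?_
  rw [LinearMap.trace_smulRight]
  simp [w2]

/-- the trace condition from the equation -/
lemma tr_of_eq {k : ℕ} {a : E → (E →L[ℝ] ℝ) →L[ℝ] E} {x : E} (ha : DifferentiableAt ℝ a x)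
    (hs : ∀ ξ ζ : E →L[ℝ] ℝ, ζ (a x ξ) = ξ (a x ζ))
    (hp : ∀ ξ : E →L[ℝ] ℝ, ξ ≠ 0 → 0 < ξ (a x ξ)) {u : E → Fin k → ℝ} (hu : ContDiffAt ℝ ∞ u x)
    {r : ℝ} (hP : ∀ j, PP a (fun y => u y j) x = r * u x j) : Tr u x := by
  obtain ⟨z, N, c, e, hc, he, hexp⟩ := PP_expand ha hs hp
  refine ⟨N, c, e, hc, he, ?_⟩
  have hj : ∀ j, ContDiffAt ℝ ∞ (fun y => u y j) x := fun j => contDiffAt_pi.1 hu j
  have hd1 : ∀ j ζ, fderiv ℝ (fun y => u y j) x ζ = fderiv ℝ u x ζ j := by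
    intro j ζ
    have h1 : HasFDerivAt u (fderiv ℝ u x) x := (hu.differentiableAt (by simp)).hasFDerivAt
    have h2 := hasFDerivAt_pi'.1 h1 j
    rw [h2.fderiv]
    rfl
  have hd2 : ∀ j ξ ζ, w2 (fun y => u y j) x ξ ζ = w2 u x ξ ζ j := by
    intro j ξ ζ
    have hev : ∀ᶠ y in 𝓝 x, fderiv ℝ (fun y => u y j) y = (ContinuousLinearMap.proj j).comp
        (fderiv ℝ u y) := by
      have h0 : ∀ᶠ y in 𝓝 x, DifferentiableAt ℝ u y := by
        have h00 : ContDiffAt ℝ 1 u x := hu.of_le (by simp)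
        exact (h00.eventually (by simp)).mono fun y hy => hy.differentiableAt (by simp)
      filter_upwards [h0] with y hy
      exact (hasFDerivAt_pi'.1 hy.hasFDerivAt j).fderiv
    have h1 : fderiv ℝ (fderiv ℝ (fun y => u y j)) x =
        fderiv ℝ (fun y => (ContinuousLinearMap.proj (R := ℝ) (φ := fun _ : Fin k => ℝ) j).comp
          (fderiv ℝ u y)) x := Filter.EventuallyEq.fderiv_eq hev
    have h2 : HasFDerivAt (fderiv ℝ u) (w2 u x) x :=
      ((w1_cd hu).differentiableAt (by simp)).hasFDerivAt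
    have h3 := (ContinuousLinearMap.compL ℝ E (Fin k → ℝ) ℝ
      (ContinuousLinearMap.proj (R := ℝ) (φ := fun _ : Fin k => ℝ) j)).hasFDerivAt.comp x h2
    unfold w2 at *
    rw [h1]
    have h4 : fderiv ℝ (fun y => (ContinuousLinearMap.proj (R := ℝ) (φ := fun _ : Fin k => ℝ) j).comp
          (fderiv ℝ u y)) x = _ := h3.fderiv
    rw [h4]
    rfl
  have hmain : ∑ m, c m • w2 u x (e m) (e m) = r • u x - fderiv ℝ u x z := by
    ext j
    have h1 := hexp _ (hj j)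
    rw [hP j, hd1] at h1
    simp only [Finset.sum_apply, Pi.smul_apply, Pi.sub_apply, smul_eq_mul, ← hd2]
    linarith
  rw [hmain]
  exact (LL u x).sub_mem ((LL u x).smul_mem _ (u_mem u x)) (du_mem u x z)

end Pool.Agent.Q196.DE
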