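import Pool.Agent.Q196.DE.Defs
import Pool.Agent.Q196.DE.Trace

set_option autoImplicit false
set_option linter.unusedSectionVars false
set_option maxSynthPendingDepth 3

open Set Filter Topology Module
open scoped Manifold ContDiff

namespace Pool.Agent.Q196.DE

/-! ### matrices depending smoothly on a parameter -/

section mat

variable {E : Type*} [NormedAddCommGroup E] [NormedSpace ℝ E] {n : ℕ}

lemma det_smooth {A : E → Matrix (Fin n) (Fin n) ℝ} {U : Set E}
    (hA : ∀ j k, ContDiffOn ℝ ∞ (fun y => A y j k) U) : ContDiffOn ℝ ∞ (fun y => (A y).det) U := by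
  have : (fun y => (A y).det) = fun y => ∑ σ : Equiv.Perm (Fin n),
      ((Equiv.Perm.sign σ : ℤ) : ℝ) * ∏ i, A y (σ i) i := by
    funext y
    exact Matrix.det_apply' (A y)
  rw [this]
  refine ContDiffOn.sum fun σ _ => contDiffOn_const.mul ?_
  exact contDiffOn_prod fun i _ => hA _ _

lemma inv_smooth {A : E → Matrix (Fin n) (Fin n) ℝ} {U : Set E}
    (hA : ∀ j k, ContDiffOn ℝ ∞ (fun y => A y j k) U) (hd : ∀ y ∈ U, (A y).det ≠ 0) (j k : Fin n) :
    ContDiffOn ℝ ∞ (fun y => (A y)⁻¹ j k) U := by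
  have : (fun y => (A y)⁻¹ j k) = fun y => ((A y).det)⁻¹ *
      ((A y).updateRow k (Pi.single j 1)).det := by
    funext y
    rw [Matrix.inv_def, Ring.inverse_eq_inv', Matrix.smul_apply, Matrix.adjugate_apply, smul_eq_mul]
  rw [this]
  refine ((det_smooth hA).inv hd).mul (det_smooth fun i l => ?_)
  by_cases h : i = k
  · subst h
    simp only [Matrix.updateRow_self]
    exact contDiffOn_const
  · simp only [Matrix.updateRow_ne h]
    exact hA i l

end mat

/-! ### divergence in coordinates -/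

section dvb

variable {E : Type*} [NormedAddCommGroup E] [NormedSpace ℝ E] [FiniteDimensional ℝ E] {n : ℕ}

lemma dv_basis (b : Basis (Fin n) ℝ E) {V : E → E} {x : E} (hV : DifferentiableAt ℝ V x) :
    dv V x = ∑ j, pd b j (fun z => b.repr (V z) j) x := by
  unfold dv
  rw [LinearMap.trace_eq_matrix_trace ℝ b]
  simp only [Matrix.trace, Matrix.diag, LinearMap.toMatrix_apply]
  refine Finset.sum_congr rfl fun j _ => ?_
  have h1 := (LinearMap.toContinuousLinearMap (b.coord j)).hasFDerivAt.comp x hV.hasFDerivAt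
  have h2 : fderiv ℝ (fun z => b.repr (V z) j) x =
      (LinearMap.toContinuousLinearMap (b.coord j)).comp (fderiv ℝ V x) := h1.fderiv
  unfold pd
  rw [h2]
  rfl

end dvb

section mfd

variable {E : Type*} [NormedAddCommGroup E] [NormedSpace ℝ E]
  {M : Type*} [TopologicalSpace M] [ChartedSpace E M] [IsManifold 𝓘(ℝ, E) ∞ M]

lemma symm_smooth {e : OpenPartialHomeomorph M E} (he : e ∈ atlas E M) :
    ContMDiffOn 𝓘(ℝ, E) 𝓘(ℝ, E) ∞ e.symm e.target :=
  contMDiffOn_symm_of_mem_maximalAtlas (IsManifold.subset_maximalAtlas he)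

lemma coord_smooth {e : OpenPartialHomeomorph M E} (he : e ∈ atlas E M) (v : E) :
    ContMDiffOn 𝓘(ℝ, E) (𝓘(ℝ, E).prod 𝓘(ℝ, E)) ∞
      (fun y => (Bundle.TotalSpace.mk' E
        (E := fun x : M => TangentSpace 𝓘(ℝ, E) x) (e.symm y) (cvec e y v))) e.target := by
  have h1 := (symm_smooth he).contMDiffOn_tangentMapWithin (m := ∞) (by simp)
    e.open_target.uniqueMDiffOn
  have h2 : ContMDiff 𝓘(ℝ, E) (𝓘(ℝ, E).prod 𝓘(ℝ, E)) ∞
      (fun y : E => (Bundle.TotalSpace.mk' E
        (E := fun x : E => TangentSpace 𝓘(ℝ, E) x) y v)) :=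
    contMDiff_vectorSpace_iff_contDiff.2 contDiff_const
  have h3 := h1.comp (h2.contMDiffOn (s := e.target)) (fun y hy => hy)
  refine h3.congr fun y hy => ?_
  simp only [Function.comp, tangentMapWithin]
  rw [mfderivWithin_of_isOpen e.open_target hy]
  rfl

lemma ip_smooth (g : Metric E M) {e : OpenPartialHomeomorph M E} (he : e ∈ atlas E M) (v w : E) :
    ContDiffOn ℝ ∞ (fun y => ip g (e.symm y) (cvec e y v) (cvec e y w)) e.target := by
  have hb := symm_smooth he
  have h1 : ContMDiffOn 𝓘(ℝ, E) (𝓘(ℝ, E).prod 𝓘(ℝ)) ∞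
      (fun y => Bundle.TotalSpace.mk' ℝ (E := Bundle.Trivial M ℝ) (e.symm y)
        (g.inner (e.symm y) (cvec e y v) (cvec e y w))) e.target := by
    apply ContMDiffOn.clm_bundle_apply₂ (F₁ := E) (F₂ := E)
    · exact g.contMDiff.comp_contMDiffOn hb
    · exact coord_smooth he _
    · exact coord_smooth he _
  have h2 : ContMDiffOn 𝓘(ℝ, E) 𝓘(ℝ) ∞
      (fun y => ip g (e.symm y) (cvec e y v) (cvec e y w)) e.target := by
    intro y hy
    have h3 := h1 y hy
    simp only [Bundle.contMDiffWithinAt_totalSpace] at h3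
    exact h3.2
  exact h2.contDiffOn

variable {n : ℕ} (b : Basis (Fin n) ℝ E)

lemma gram_smooth (g : Metric E M) {e : OpenPartialHomeomorph M E} (he : e ∈ atlas E M)
    (j k : Fin n) : ContDiffOn ℝ ∞ (fun y => gram b g e y j k) e.target :=
  ip_smooth g he (b j) (b k)

lemma dsymm_inj {e : OpenPartialHomeomorph M E} (he : e ∈ atlas E M) {y : E}
    (hy : y ∈ e.target) (v : E) (hv : cvec e y v = 0) : v = 0 := by
  have h1 := (mdifferentiable_of_mem_atlas (I := 𝓘(ℝ, E)) he).comp_symm_deriv hy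
  let A : E →L[ℝ] E := mfderiv 𝓘(ℝ, E) 𝓘(ℝ, E) e.symm y
  let B : E →L[ℝ] E := mfderiv 𝓘(ℝ, E) 𝓘(ℝ, E) e (e.symm y)
  have h2 : B (A v) = v := DFunLike.congr_fun h1 v
  have h3 : A v = 0 := hv
  rw [← h2, h3, map_zero]

lemma gram_sum (g : Metric E M) (e : OpenPartialHomeomorph M E) (y : E) (v : Fin n → ℝ) :
    ∑ j, ∑ k, v j * (gram b g e y j k * v k) =
      ip g (e.symm y) (cvec e y (∑ j, v j • b j)) (cvec e y (∑ j, v j • b j)) := by
  let A : E →L[ℝ] E := mfderiv 𝓘(ℝ, E) 𝓘(ℝ, E) e.symm y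
  let G : E →L[ℝ] E →L[ℝ] ℝ := g.inner (e.symm y)
  change ∑ j, ∑ k, v j * (G (A (b j)) (A (b k)) * v k) = G (A (∑ j, v j • b j)) (A (∑ j, v j • b j))
  rw [map_sum, map_sum, Finset.sum_comm]
  refine Finset.sum_congr rfl fun k _ => ?_
  rw [map_sum, _root_.sum_apply]
  refine Finset.sum_congr rfl fun j _ => ?_
  simp only [map_smul, _root_.smul_apply, smul_eq_mul]
  ring

lemma gram_posDef (g : Metric E M) {e : OpenPartialHomeomorph M E} (he : e ∈ atlas E M) {y : E}
    (hy : y ∈ e.target) : (gram b g e y).PosDef := by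
  refine Matrix.PosDef.of_dotProduct_mulVec_pos ?_ ?_
  · ext j k
    simp only [Matrix.conjTranspose_apply, star_trivial, gram, Matrix.of_apply]
    exact g.symm _ _ _
  · intro v hv
    have h1 : star v ⬝ᵥ (gram b g e y).mulVec v = ∑ j, ∑ k, v j * (gram b g e y j k * v k) := by
      simp only [dotProduct, Matrix.mulVec, star_trivial, Finset.mul_sum]
    rw [h1, gram_sum]
    apply g.pos
    intro h0
    apply hv
    have h2 := dsymm_inj he hy _ h0
    funext i
    have h3 := congrArg (fun w : E => b.repr w i) h2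
    simpa [Finsupp.single_apply] using h3

/-- the elementary operator `ξ ↦ ξ(e_k) e_j` -/
noncomputable def TT (j k : Fin n) : (E →L[ℝ] ℝ) →L[ℝ] E :=
  (ContinuousLinearMap.apply ℝ ℝ (b k)).smulRight (b j)

/-- the coefficient field of the Laplacian in the chart -/
noncomputable def aa (g : Metric E M) (e : OpenPartialHomeomorph M E)
    (y : E) : (E →L[ℝ] ℝ) →L[ℝ] E :=
  ∑ j, ∑ k, (√(gram b g e y).det * (gram b g e y)⁻¹ j k) • TT b j k

lemma aa_apply (g : Metric E M) (e : OpenPartialHomeomorph M E) (y : E) (ξ : E →L[ℝ] ℝ)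
    (i : Fin n) : b.repr (aa b g e y ξ) i =
      √(gram b g e y).det * ∑ k, (gram b g e y)⁻¹ i k * ξ (b k) := by
  unfold aa
  rw [_root_.sum_apply, map_sum, Finsupp.finsetSum_apply, Finset.sum_eq_single i]
  · rw [_root_.sum_apply, map_sum, Finsupp.finsetSum_apply, Finset.mul_sum]
    refine Finset.sum_congr rfl fun k _ => ?_
    simp [TT]
    ring
  · intro j _ hj
    rw [_root_.sum_apply, map_sum, Finsupp.finsetSum_apply]
    refine Finset.sum_eq_zero fun k _ => ?_
    simp [TT, hj]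
  · intro h
    exact absurd (Finset.mem_univ _) h

lemma aa_pair (g : Metric E M) (e : OpenPartialHomeomorph M E) (y : E) (ξ ζ : E →L[ℝ] ℝ) :
    ζ (aa b g e y ξ) = √(gram b g e y).det * ∑ j, ∑ k, ζ (b j) *
      ((gram b g e y)⁻¹ j k * ξ (b k)) := by
  unfold aa
  rw [_root_.sum_apply, map_sum, Finset.mul_sum]
  refine Finset.sum_congr rfl fun j _ => ?_
  rw [_root_.sum_apply, map_sum, Finset.mul_sum]
  refine Finset.sum_congr rfl fun k _ => ?_
  simp [TT]
  ring

lemma aa_smooth (g : Metric E M) {e : OpenPartialHomeomorph M E} (he : e ∈ atlas E M) :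
    ContDiffOn ℝ ∞ (aa b g e) e.target := by
  unfold aa
  have hd : ∀ y ∈ e.target, (gram b g e y).det ≠ 0 := fun y hy =>
    (gram_posDef b g he hy).det_pos.ne'
  refine ContDiffOn.sum fun j _ => ContDiffOn.sum fun k _ => ?_
  exact (((det_smooth (gram_smooth b g he)).sqrt hd).mul
    (inv_smooth (gram_smooth b g he) hd j k)).smul contDiffOn_const

lemma aa_ell (g : Metric E M) {e : OpenPartialHomeomorph M E} (he : e ∈ atlas E M) :
    Ell (aa b g e) e.target := by
  refine ⟨aa_smooth b g he, ?_, ?_⟩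
  · intro y hy ξ ζ
    rw [aa_pair, aa_pair, Finset.sum_comm]
    congr 1
    refine Finset.sum_congr rfl fun k _ => Finset.sum_congr rfl fun j _ => ?_
    have h1 : (gram b g e y)⁻¹ j k = (gram b g e y)⁻¹ k j := by
      have := (gram_posDef b g he hy).inv.isHermitian.apply j k
      simpa using this.symm
    rw [h1]
    ring
  · intro y hy ξ hξ
    rw [aa_pair]
    have hpd := (gram_posDef b g he hy)
    refine mul_pos (Real.sqrt_pos.2 hpd.det_pos) ?_
    have hv : (fun j => ξ (b j)) ≠ 0 := by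
      intro h0
      apply hξ
      ext x
      have h1 : ∀ j, ξ (b j) = 0 := fun j => congrFun h0 j
      rw [← b.sum_repr x, map_sum]
      simp [h1]
    have h2 := hpd.inv.dotProduct_mulVec_pos hv
    simpa only [dotProduct, Matrix.mulVec, star_trivial, Finset.mul_sum] using h2

lemma PP_lap [FiniteDimensional ℝ E] (g : Metric E M) {e : OpenPartialHomeomorph M E}
    (he : e ∈ atlas E M) {f : M → ℝ} (hf : ContDiffOn ℝ ∞ (f ∘ e.symm) e.target) {y : E}
    (hy : y ∈ e.target) :
    PP (aa b g e) (f ∘ e.symm) y = √(gram b g e y).det * laplacian b g e f y := by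
  have hpos : 0 < √(gram b g e y).det := Real.sqrt_pos.2 (gram_posDef b g he hy).det_pos
  have h1 : DifferentiableAt ℝ (fun z => aa b g e z (fderiv ℝ (f ∘ e.symm) z)) y := by
    have h2 : ContDiffAt ℝ ∞ (aa b g e) y :=
      (aa_smooth b g he).contDiffAt (e.open_target.mem_nhds hy)
    have h3 : ContDiffAt ℝ ∞ (f ∘ e.symm) y := hf.contDiffAt (e.open_target.mem_nhds hy)
    have h4 : ContDiffAt ℝ ∞ (fderiv ℝ (f ∘ e.symm)) y := w1_cd h3
    exact (h2.clm_apply h4).differentiableAt (by simp)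
  unfold PP laplacian
  rw [dv_basis b h1, ← mul_assoc, mul_inv_cancel₀ hpos.ne', one_mul]
  refine Finset.sum_congr rfl fun j _ => ?_
  congr 1
  funext z
  rw [aa_apply]
  rfl

end mfd

end Pool.Agent.Q196.DE
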