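import Pool.Agent.Q196.DE.Iso

set_option autoImplicit false
set_option linter.unusedSectionVars false
set_option maxSynthPendingDepth 3

open Set Filter Topology
open scoped ContDiff

namespace Pool.Agent.Q196.DE

variable {E : Type*} [NormedAddCommGroup E] [NormedSpace ℝ E] [FiniteDimensional ℝ E]
  {V : Type*} [NormedAddCommGroup V] [NormedSpace ℝ V] [FiniteDimensional ℝ V]

lemma Phi_diff {u : E → V} {x : E} (hu : ContDiffAt ℝ ∞ u x) :
    DifferentiableAt ℝ (Phi u) x := by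
  have h1 : DifferentiableAt ℝ u x := hu.differentiableAt (by simp)
  have h2 : DifferentiableAt ℝ (fderiv ℝ u) x := (w1_cd hu).differentiableAt (by simp)
  have h3 : DifferentiableAt ℝ
      (fun y => (ContinuousLinearMap.fst ℝ ℝ E).smulRight (u y)) x :=
    (ContinuousLinearMap.smulRightL ℝ (ℝ × E) V
      (ContinuousLinearMap.fst ℝ ℝ E)).differentiableAt.comp x h1
  have h4 : DifferentiableAt ℝ
      (fun y => (fderiv ℝ u y).comp (ContinuousLinearMap.snd ℝ ℝ E)) x :=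
    h2.clm_comp (differentiableAt_const _)
  exact h3.add h4

/-- uniform right inverse on the image near a point -/
lemma rank_main {u : E → V} {x0 : E} (hu : ContDiffAt ℝ ∞ u x0) :
    ∃ K : ℝ, 0 < K ∧ ∀ᶠ x in 𝓝 x0,
      Module.finrank ℝ (LL u x0) ≤ Module.finrank ℝ (LL u x) ∧
      (Module.finrank ℝ (LL u x) ≤ Module.finrank ℝ (LL u x0) → ∀ z ∈ LL u x,
        ∃ w : ℝ × E, Phi u x w = z ∧ ‖w‖ ≤ K * ‖z‖) := by
  obtain ⟨W, hW⟩ := Submodule.exists_isCompl (LinearMap.ker (Phi u x0).toLinearMap)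
  set T0 : W →ₗ[ℝ] V := (Phi u x0).toLinearMap.domRestrict W with hT0
  have hker : LinearMap.ker T0 = ⊥ := by
    rw [LinearMap.ker_eq_bot']
    intro w hw
    have h1 : (w : ℝ × E) ∈ LinearMap.ker (Phi u x0).toLinearMap := hw
    have h2 : (w : ℝ × E) ∈ (LinearMap.ker (Phi u x0).toLinearMap ⊓ W : Submodule ℝ (ℝ × E)) :=
      ⟨h1, w.2⟩
    rw [hW.inf_eq_bot] at h2
    exact Subtype.ext h2
  obtain ⟨K0, hK0, hanti⟩ := T0.exists_antilipschitzWith hker
  have hK0' : (0 : ℝ) < K0 := by exact_mod_cast hK0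
  have hlow : ∀ w ∈ W, ‖w‖ ≤ K0 * ‖Phi u x0 w‖ := by
    intro w hw
    have h1 := hanti.le_mul_dist (⟨w, hw⟩ : W) 0
    rw [dist_zero_right, map_zero, dist_zero_right] at h1
    exact h1
  have hfinW : Module.finrank ℝ W = Module.finrank ℝ (LL u x0) := by
    have h1 := (Phi u x0).toLinearMap.finrank_range_add_finrank_ker
    have h2 := Submodule.finrank_add_eq_of_isCompl hW
    have h3 : Module.finrank ℝ (LinearMap.range (Phi u x0).toLinearMap) =
      Module.finrank ℝ (LL u x0) := rfl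
    omega
  refine ⟨2 * K0, by positivity, ?_⟩
  have hcont : ContinuousAt (fun x => ‖Phi u x - Phi u x0‖) x0 :=
    ((Phi_diff hu).continuousAt.sub continuousAt_const).norm
  have hev : ∀ᶠ x in 𝓝 x0, ‖Phi u x - Phi u x0‖ < 1 / (2 * K0) :=
    hcont.eventually (gt_mem_nhds (by simp only [sub_self, norm_zero]; positivity))
  filter_upwards [hev] with x hx
  have hlow2 : ∀ w ∈ W, ‖w‖ ≤ 2 * K0 * ‖Phi u x w‖ := by
    intro w hw
    have h1 := hlow w hw
    have h2 : ‖Phi u x0 w‖ ≤ ‖Phi u x w‖ + ‖(Phi u x - Phi u x0) w‖ := by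
      have : Phi u x0 w = Phi u x w - (Phi u x - Phi u x0) w := by simp
      rw [this]
      exact norm_sub_le _ _
    have h3 : ‖(Phi u x - Phi u x0) w‖ ≤ 1 / (2 * K0) * ‖w‖ :=
      ((Phi u x - Phi u x0).le_opNorm w).trans (mul_le_mul_of_nonneg_right hx.le (norm_nonneg _))
    have h4 : K0 * (1 / (2 * K0) * ‖w‖) = ‖w‖ / 2 := by
      field_simp
    nlinarith [mul_le_mul_of_nonneg_left (h2.trans (add_le_add_right h3 _)) hK0'.le]
  set T : W →ₗ[ℝ] V := (Phi u x).toLinearMap.domRestrict W with hT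
  have hTinj : Function.Injective T := by
    rw [injective_iff_map_eq_zero]
    intro w hw
    have h1 := hlow2 w w.2
    have h2 : Phi u x (w : ℝ × E) = 0 := hw
    rw [h2, norm_zero, mul_zero] at h1
    exact Subtype.ext (norm_le_zero_iff.1 h1)
  have hTr : LinearMap.range T ≤ LL u x := by
    rintro _ ⟨w, rfl⟩
    exact ⟨(w : ℝ × E), rfl⟩
  have hTf : Module.finrank ℝ (LinearMap.range T) = Module.finrank ℝ W :=
    LinearMap.finrank_range_of_inj hTinj
  have hle : Module.finrank ℝ (LL u x0) ≤ Module.finrank ℝ (LL u x) := by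
    rw [← hfinW, ← hTf]
    exact Submodule.finrank_mono hTr
  refine ⟨hle, fun hge z hz => ?_⟩
  have heq : LinearMap.range T = LL u x := by
    apply Submodule.eq_of_le_of_finrank_le hTr
    rw [hTf, hfinW]
    exact hge
  rw [← heq] at hz
  obtain ⟨w, rfl⟩ := hz
  exact ⟨w, rfl, hlow2 w w.2⟩

/-- the derivative of `Phi` maps the kernel into the image (constant rank) -/
lemma ker_deriv {u : E → V} {x0 : E} (hu : ContDiffAt ℝ ∞ u x0)
    (hr : ∀ᶠ x in 𝓝 x0, Module.finrank ℝ (LL u x) ≤ Module.finrank ℝ (LL u x0))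
    (l : V →L[ℝ] ℝ) (hl : ∀ z ∈ LL u x0, l z = 0) {w : ℝ × E} (hw : Phi u x0 w = 0) :
    HasFDerivAt (fun x => l (Phi u x w)) (0 : E →L[ℝ] ℝ) x0 := by
  obtain ⟨K, hK, hev⟩ := rank_main hu
  obtain ⟨c, hc⟩ := (Phi_diff hu).isBigO_sub.bound
  have h1 : (fun x => l (Phi u x w)) =O[𝓝 x0] fun x => ‖x - x0‖ ^ 2 := by
    refine Asymptotics.IsBigO.of_bound (‖l‖ * (|c| * (K * (|c| * ‖w‖)))) ?_
    filter_upwards [hev, hr, hc] with x h1 h2 h3
    obtain ⟨s, hs, hsn⟩ := h1.2 h2 (Phi u x w) ⟨w, rfl⟩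
    have h3' : ‖Phi u x - Phi u x0‖ ≤ |c| * ‖x - x0‖ :=
      h3.trans (mul_le_mul_of_nonneg_right (le_abs_self c) (norm_nonneg _))
    have h4 : l (Phi u x w) = l ((Phi u x - Phi u x0) s) := by
      have h7 : l (Phi u x0 s) = 0 := hl _ ⟨s, rfl⟩
      rw [_root_.sub_apply, map_sub, h7, sub_zero, hs]
    have h5 : ‖Phi u x w‖ ≤ |c| * ‖x - x0‖ * ‖w‖ := by
      have : Phi u x w = (Phi u x - Phi u x0) w := by simp [hw]
      rw [this]
      exact ((Phi u x - Phi u x0).le_opNorm w).trans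
        (mul_le_mul_of_nonneg_right h3' (norm_nonneg _))
    have h6 : ‖(Phi u x - Phi u x0) s‖ ≤ |c| * ‖x - x0‖ * (K * (|c| * ‖x - x0‖ * ‖w‖)) :=
      ((Phi u x - Phi u x0).le_opNorm s).trans (mul_le_mul h3'
        (hsn.trans (mul_le_mul_of_nonneg_left h5 hK.le)) (norm_nonneg _) (by positivity))
    rw [h4]
    refine (l.le_opNorm _).trans ?_
    rw [Real.norm_of_nonneg (by positivity : (0 : ℝ) ≤ ‖x - x0‖ ^ 2)]
    calc ‖l‖ * ‖(Phi u x - Phi u x0) s‖ ≤
        ‖l‖ * (|c| * ‖x - x0‖ * (K * (|c| * ‖x - x0‖ * ‖w‖))) :=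
          mul_le_mul_of_nonneg_left h6 (norm_nonneg _)
      _ = _ := by ring
  exact h1.hasFDerivAt (by norm_num)

lemma hess_ker {u : E → V} {x0 : E} (hu : ContDiffAt ℝ ∞ u x0)
    (hr : ∀ᶠ x in 𝓝 x0, Module.finrank ℝ (LL u x) ≤ Module.finrank ℝ (LL u x0))
    (l : V →L[ℝ] ℝ) (hl : ∀ z ∈ LL u x0, l z = 0) {c : ℝ} {ξ : E}
    (hw : fderiv ℝ u x0 ξ = c • u x0) (ζ : E) : l (w2 u x0 ζ ξ) = 0 := by
  have hw' : Phi u x0 (-c, ξ) = 0 := by simp [Phi_apply, hw]
  have h1 := ker_deriv hu hr l hl hw'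
  have hd : HasFDerivAt u (fderiv ℝ u x0) x0 := (hu.differentiableAt (by simp)).hasFDerivAt
  have h2 := (fderiv_du hu ξ).1.hasFDerivAt
  have h3 : HasFDerivAt (fun x => l (Phi u x (-c, ξ)))
      (l.comp ((-c) • fderiv ℝ u x0 + fderiv ℝ (fun y => fderiv ℝ u y ξ) x0)) x0 := by
    have h4 := l.hasFDerivAt.comp x0 ((hd.const_smul (-c)).add h2)
    refine h4.congr_of_eventuallyEq (Eventually.of_forall fun x => ?_)
    simp [Phi_apply]
  have h5 := congrArg (fun T : E →L[ℝ] ℝ => T ζ) (h3.unique h1)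
  simp only [ContinuousLinearMap.comp_apply, _root_.add_apply, _root_.smul_apply,
    (fderiv_du hu ξ).2, map_add, map_smul, hl _ (du_mem u x0 ζ), _root_.zero_apply] at h5
  simpa using h5

/-- if the rank is at most two, the second derivatives lie in `L` -/
lemma second_mem_two {u : E → V} {x0 : E} (hu : ContDiffAt ℝ ∞ u x0)
    (hr : ∀ᶠ x in 𝓝 x0, Module.finrank ℝ (LL u x) ≤ Module.finrank ℝ (LL u x0))
    (h2 : Module.finrank ℝ (LL u x0) ≤ 2) (hu0 : u x0 ≠ 0) (htr : Tr u x0) (ζ ξ : E) :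
    w2 u x0 ζ ξ ∈ LL u x0 := by
  by_contra hnot
  obtain ⟨f, hf1, hf2⟩ := Submodule.exists_le_ker_of_notMem hnot
  set l : V →L[ℝ] ℝ := LinearMap.toContinuousLinearMap f with hl
  have hlL : ∀ z ∈ LL u x0, l z = 0 := fun z hz => hf2 hz
  apply hf1
  change l (w2 u x0 ζ ξ) = 0
  let S : Submodule ℝ V := Submodule.span ℝ {u x0}
  have hS : ∀ ξ, fderiv ℝ u x0 ξ ∈ S → ∀ ζ, l (w2 u x0 ζ ξ) = 0 := by
    intro ξ hξ ζ
    obtain ⟨c, hc⟩ := Submodule.mem_span_singleton.1 hξ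
    exact hess_ker hu hr l hlL hc.symm ζ
  by_cases hall : ∀ ξ, fderiv ℝ u x0 ξ ∈ S
  · exact hS ξ (hall ξ) ζ
  push Not at hall
  obtain ⟨ξ0, hξ0⟩ := hall
  -- `L` is spanned by `u x0` and `Du ξ0`
  have hdecomp : ∀ ξ, ∃ t : ℝ, fderiv ℝ u x0 (ξ - t • ξ0) ∈ S := by
    intro ξ
    set S2 : Submodule ℝ V := S ⊔ Submodule.span ℝ {fderiv ℝ u x0 ξ0} with hS2
    have hS2L : S2 ≤ LL u x0 := by
      refine sup_le ?_ ?_
      · rw [Submodule.span_singleton_le_iff_mem]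
        exact u_mem u x0
      · rw [Submodule.span_singleton_le_iff_mem]
        exact du_mem u x0 ξ0
    have hSS2 : S < S2 := by
      refine lt_of_le_of_ne le_sup_left fun h => hξ0 ?_
      rw [h]
      exact Submodule.mem_sup_right (Submodule.mem_span_singleton_self _)
    have h3 : Module.finrank ℝ S = 1 := finrank_span_singleton hu0
    have h4 : Module.finrank ℝ S < Module.finrank ℝ S2 := Submodule.finrank_lt_finrank_of_lt hSS2
    have h5 : S2 = LL u x0 := Submodule.eq_of_le_of_finrank_le hS2L (by omega)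
    have h6 : fderiv ℝ u x0 ξ ∈ S2 := by
      rw [h5]
      exact du_mem u x0 ξ
    obtain ⟨p, hp, q, hq, hpq⟩ := Submodule.mem_sup.1 h6
    obtain ⟨t, rfl⟩ := Submodule.mem_span_singleton.1 hq
    refine ⟨t, ?_⟩
    rw [map_sub, map_smul, ← hpq, add_sub_cancel_right]
    exact hp
  choose t ht using hdecomp
  have hlin : ∀ ζ ξ, l (w2 u x0 ζ ξ) = t ξ * l (w2 u x0 ζ ξ0) := by
    intro ζ ξ
    have h3 := hS _ (ht ξ) ζ
    rw [map_sub, map_sub, map_smul, map_smul, smul_eq_mul] at h3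
    linarith
  have hlin2 : ∀ ζ ξ, l (w2 u x0 ζ ξ) = t ξ * t ζ * l (w2 u x0 ξ0 ξ0) := by
    intro ζ ξ
    rw [hlin ζ ξ, w2_symm hu ζ ξ0, hlin ξ0 ζ]
    ring
  obtain ⟨N, c, e, hc, he, hs⟩ := htr
  have hsum : ∑ m, c m * (t (e m) * t (e m) * l (w2 u x0 ξ0 ξ0)) = 0 := by
    have h3 := hlL _ hs
    rw [map_sum] at h3
    rw [← h3]
    refine Finset.sum_congr rfl fun m _ => ?_
    rw [map_smul, smul_eq_mul, hlin2 (e m) (e m)]
  have hex : ∃ m, t (e m) ≠ 0 := by
    by_contra hno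
    push Not at hno
    apply hξ0
    have hsp : ∀ ξ ∈ Submodule.span ℝ (range e), fderiv ℝ u x0 ξ ∈ S := by
      intro ξ hξ
      induction hξ using Submodule.span_induction with
      | mem y hy =>
        obtain ⟨m, rfl⟩ := hy
        have := ht (e m)
        rwa [hno m, zero_smul, sub_zero] at this
      | zero => simp
      | add y z _ _ h3 h4 =>
        rw [map_add]
        exact S.add_mem h3 h4
      | smul r y _ h3 =>
        rw [map_smul]
        exact S.smul_mem r h3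
    exact hsp ξ0 (he ▸ Submodule.mem_top)
  obtain ⟨m0, hm0⟩ := hex
  have hpos : 0 < ∑ m, c m * (t (e m) * t (e m)) := by
    apply Finset.sum_pos'
    · intro m _
      exact mul_nonneg (hc m).le (mul_self_nonneg _)
    · exact ⟨m0, Finset.mem_univ _, mul_pos (hc m0) (mul_self_pos.2 hm0)⟩
  have h7 : (∑ m, c m * (t (e m) * t (e m))) * l (w2 u x0 ξ0 ξ0) = 0 := by
    rw [← hsum, Finset.sum_mul]
    refine Finset.sum_congr rfl fun m _ => ?_
    ring
  have h8 : l (w2 u x0 ξ0 ξ0) = 0 := by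
    rcases mul_eq_zero.1 h7 with h | h
    · exact absurd h hpos.ne'
    · exact h
  rw [hlin2, h8, mul_zero]

end Pool.Agent.Q196.DE
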