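import Pool.Agent.Q196.DE.Weight

set_option autoImplicit false
set_option linter.unusedSectionVars false
set_option maxSynthPendingDepth 3

open MeasureTheory Set Filter Topology
open scoped ContDiff

namespace Pool.Agent.Q196.DE

section int

variable {E : Type*} [NormedAddCommGroup E] [NormedSpace ℝ E] [FiniteDimensional ℝ E]

variable {a : E → (E →L[ℝ] ℝ) →L[ℝ] E} (ha : ContDiff ℝ ∞ a) (hs : Sym a) {φ v w f : E → ℝ}
  (hφ : ContDiff ℝ ∞ φ) (hv : ContDiff ℝ ∞ v)

lemma v_zero {x : E} (hx : x ∉ tsupport v) : v x = 0 := image_eq_zero_of_notMem_tsupport hx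

lemma dv_zero {x : E} (hx : x ∉ tsupport v) : fderiv ℝ v x = 0 := by
  by_contra hne
  exact hx ((support_fderiv_subset ℝ) hne)

lemma dv_congr {V W : E → E} {x : E} (h : V =ᶠ[𝓝 x] W) : dv V x = dv W x := by
  unfold dv
  rw [h.fderiv_eq]

lemma PP_congr {x : E} (h : v =ᶠ[𝓝 x] w) : PP a v x = PP a w x := by
  refine dv_congr ?_
  have h1 : fderiv ℝ v =ᶠ[𝓝 x] fderiv ℝ w := h.fderiv
  filter_upwards [h1] with y hy
  rw [hy]

lemma PP_zero {x : E} (hx : x ∉ tsupport v) : PP a v x = 0 := by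
  have h1 : v =ᶠ[𝓝 x] fun _ => (0 : ℝ) := notMem_tsupport_iff_eventuallyEq.1 hx
  rw [PP_congr h1]
  simp [PP, dv]

lemma FF_zero (τ β : ℝ) {x : E} (hx : x ∉ tsupport v) : FF a φ v τ β x = 0 := by
  have e1 := v_zero hx
  have e2 := dv_zero hx
  simp [FF, F1, F2, F3, F4, F5, gr, e1, e2]

lemma Pτ_zero (τ : ℝ) {x : E} (hx : x ∉ tsupport v) : Pτ a φ v τ x = 0 := by
  have e1 := v_zero hx
  have e2 := dv_zero hx
  have e3 := PP_zero (a := a) hx
  simp [Pτ, e1, e2, e3]

include ha hφ hv in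
lemma Pτ_cd (τ : ℝ) : ContDiff ℝ ∞ (Pτ a φ v τ) := by
  unfold Pτ
  have h1 := PP_contDiff ha hv
  have h2 := pair_contDiff ha hφ hφ
  have h3 := pair_contDiff ha hv hφ
  have h4 := PP_contDiff ha hφ
  exact (h1.add ((contDiff_const.mul h2).mul hv)).sub
    (contDiff_const.mul ((contDiff_const.mul h3).add (h4.mul hv)))

variable [MeasurableSpace E] [BorelSpace E] (μ : Measure E) [μ.IsAddHaarMeasure]

include ha hs hφ hv in
/-- integrated Carleman inequality -/
lemma carl_int {C1 C2 α β κ Nb τ : ℝ} (hτ : 0 ≤ τ) (hβ : β * α = C1 + 1 / 2) (hβ0 : 0 ≤ β)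
    (hc : HasCompactSupport v) (hx : ∀ x ∈ tsupport v, Hyp a φ C1 C2 α κ Nb x) :
    (2 * τ ^ 3 * (κ - β * Nb) - τ ^ 2 * β ^ 2 - τ * C2 ^ 2) * ∫ x, v x ^ 2 ∂μ
      ≤ ∫ x, (Pτ a φ v τ x) ^ 2 ∂μ := by
  have hFc : HasCompactSupport (FF a φ v τ β) := HasCompactSupport.intro hc fun x h => FF_zero τ β h
  have hFF := FF_cd ha hφ hv τ β
  have h1 : Integrable (fun x => v x ^ 2) μ :=
    ((hv.pow 2).continuous).integrable_of_hasCompactSupport
      (HasCompactSupport.intro hc fun x h => by simp [v_zero h])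
  have h2 : Integrable (dv (FF a φ v τ β)) μ :=
    (dv_contDiff hFF).continuous.integrable_of_hasCompactSupport
      (HasCompactSupport.intro hFc fun x h => by
        have : FF a φ v τ β =ᶠ[𝓝 x] fun _ => (0 : E) := notMem_tsupport_iff_eventuallyEq.1 h
        rw [dv_congr this]
        simp [dv])
  have h3 : Integrable (fun x => (Pτ a φ v τ x) ^ 2) μ :=
    (((Pτ_cd ha hφ hv τ).pow 2).continuous).integrable_of_hasCompactSupport
      (HasCompactSupport.intro hc fun x h => by simp [Pτ_zero τ h])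
  have h4 : ∫ x, dv (FF a φ v τ β) x ∂μ = 0 := integral_dv μ (hFF.of_le (by simp)) hFc
  have h5 := integral_mono (μ := μ) ((h1.const_mul
    (2 * τ ^ 3 * (κ - β * Nb) - τ ^ 2 * β ^ 2 - τ * C2 ^ 2)).add h2) h3
    (fun x => carl_point ha hs hφ hv hτ hβ hβ0 (hx x))
  have h6 : ∫ x, ((2 * τ ^ 3 * (κ - β * Nb) - τ ^ 2 * β ^ 2 - τ * C2 ^ 2) * v x ^ 2 +
      dv (FF a φ v τ β) x) ∂μ = (2 * τ ^ 3 * (κ - β * Nb) - τ ^ 2 * β ^ 2 - τ * C2 ^ 2) *
        ∫ x, v x ^ 2 ∂μ := by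
    rw [integral_add (h1.const_mul _) h2, h4, integral_const_mul, add_zero]
  rw [← h6]
  exact h5

end int

section local_ucp

variable {E : Type*} [NormedAddCommGroup E] [InnerProductSpace ℝ E] [FiniteDimensional ℝ E]

/-- the geometric inequality -/
lemma geo {y z0 x : E} (h : ‖y - z0‖ ≤ ‖x - z0‖) :
    ‖x - y‖ ^ 2 / 4 ≤ ‖x - (y + (2⁻¹ : ℝ) • (z0 - y))‖ ^ 2 / 2 -
      ‖y - (y + (2⁻¹ : ℝ) • (z0 - y))‖ ^ 2 / 2 := by
  have h2 : ‖y - z0‖ ^ 2 ≤ ‖x - z0‖ ^ 2 := by gcongr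
  obtain ⟨p, hp⟩ : ∃ p, p = x - y := ⟨_, rfl⟩
  obtain ⟨q, hq⟩ : ∃ q, q = z0 - y := ⟨_, rfl⟩
  have e1 : x - z0 = p - q := by rw [hp, hq]; abel
  have e2 : y - z0 = -q := by rw [hq]; abel
  have e3 : x - (y + (2⁻¹ : ℝ) • (z0 - y)) = p - (2⁻¹ : ℝ) • q := by rw [hp, hq]; abel
  have e4 : y - (y + (2⁻¹ : ℝ) • (z0 - y)) = -((2⁻¹ : ℝ) • q) := by rw [hq]; abel
  rw [e1, e2, norm_neg, norm_sub_sq_real] at h2
  rw [e3, e4, norm_neg, norm_sub_sq_real p, real_inner_smul_right, ← hp]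
  nlinarith [h2]

lemma psi_cd (z1 : E) : ContDiff ℝ ∞ (fun x : E => ‖x - z1‖ ^ 2 / 2) :=
  ((contDiff_id.sub contDiff_const).norm_sq ℝ).div_const 2

lemma psi_fderiv (z1 y : E) (h : y ≠ z1) : fderiv ℝ (fun x : E => ‖x - z1‖ ^ 2 / 2) y ≠ 0 := by
  intro h0
  have h1 : HasFDerivAt (fun x : E => x - z1) (ContinuousLinearMap.id ℝ E) y :=
    (hasFDerivAt_id y).sub_const z1
  have h2 := (h1.norm_sq).mul_const (2⁻¹ : ℝ)
  have h3 : fderiv ℝ (fun x : E => ‖x - z1‖ ^ 2 / 2) y (y - z1) = ‖y - z1‖ ^ 2 := by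
    have : (fun x : E => ‖x - z1‖ ^ 2 / 2) = fun x : E => ‖x - z1‖ ^ 2 * 2⁻¹ := by
      funext x
      ring
    rw [this, h2.fderiv]
    simp only [_root_.smul_apply, ContinuousLinearMap.comp_apply, ContinuousLinearMap.id_apply,
      innerSL_apply_apply, real_inner_self_eq_norm_sq, smul_eq_mul, nsmul_eq_mul]
    push_cast
    ring
  rw [h0] at h3
  have h4 : ‖y - z1‖ ≠ 0 := norm_ne_zero_iff.2 (sub_ne_zero.2 h)
  have h5 : 0 < ‖y - z1‖ ^ 2 := by positivity
  simp at h3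
  exact h4 (by simpa using h3.symm)

/-- **Local unique continuation** across a sphere, for smooth coefficients. -/
theorem ucp_local {a : E → (E →L[ℝ] ℝ) →L[ℝ] E} (ha : ContDiff ℝ ∞ a) (hs : Sym a) {f : E → ℝ}
    (hf : ContDiff ℝ ∞ f) {y z0 : E} (hyz : y ≠ z0)
    (hpos : ∀ ξ : E →L[ℝ] ℝ, ξ ≠ 0 → 0 < ξ (a y ξ)) {C : ℝ}
    (hPf : ∀ᶠ x in 𝓝 y, |PP a f x| ≤ C * |f x|)
    (h0 : ∀ᶠ x in 𝓝 y, ‖x - z0‖ < ‖y - z0‖ → f x = 0) : ∀ᶠ x in 𝓝 y, f x = 0 := by
  classical
  letI : MeasurableSpace E := borel E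
  haveI : BorelSpace E := ⟨rfl⟩
  let μ : Measure E := Measure.addHaar
  set z1 : E := y + (2⁻¹ : ℝ) • (z0 - y) with hz1
  have hyz1 : y ≠ z1 := by
    intro h
    have h1 : (2⁻¹ : ℝ) • (z0 - y) = 0 := by
      have : y + (2⁻¹ : ℝ) • (z0 - y) = y := h.symm
      simpa using this
    have h2 : z0 - y = 0 := by
      rcases smul_eq_zero.1 h1 with h | h
      · norm_num at h
      · exact h
    exact hyz (sub_eq_zero.1 h2).symm
  set ψ : E → ℝ := fun x : E => ‖x - z1‖ ^ 2 / 2 with hψd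
  have hψ : ContDiff ℝ ∞ ψ := psi_cd z1
  set t0 : ℝ := ψ y with ht0
  obtain ⟨s, C1, C2, α, κ, Nb, β, hs0, hβ0, hβα, hNb, hyp⟩ :=
    exists_hyp ha hs hψ hpos ht0.symm (psi_fderiv z1 y hyz1)
  set φ := wt ψ s t0 with hφd
  have hφ : ContDiff ℝ ∞ φ := wt_cd hψ s t0
  have hφy : φ y = 0 := by simp [hφd, wt, ht0]
  -- weight bound
  have hψt : ∀ᶠ x in 𝓝 y, ψ x - t0 ≤ 1 / s := by
    have : ContinuousAt (fun x => ψ x - t0) y := (hψ.continuous.sub continuous_const).continuousAt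
    exact ev_le this (by simp [ht0]; positivity)
  obtain ⟨R, hR, hball⟩ : ∃ R > 0, ∀ x ∈ Metric.closedBall y R, Hyp a φ C1 C2 α κ Nb x ∧
      |PP a f x| ≤ C * |f x| ∧ (‖x - z0‖ < ‖y - z0‖ → f x = 0) ∧ ψ x - t0 ≤ 1 / s := by
    have h1 := hyp.and (hPf.and (h0.and hψt))
    obtain ⟨R, hR, h2⟩ := Metric.nhds_basis_closedBall.eventually_iff.1 h1
    exact ⟨R, hR, fun x hx => h2 hx⟩
  have hφf : ∀ x ∈ Metric.closedBall y R, f x ≠ 0 → φ x ≤ -(‖x - y‖ ^ 2 / 8) := by
    intro x hx hfx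
    obtain ⟨-, -, h3, h4⟩ := hball x hx
    have h5 : ‖y - z0‖ ≤ ‖x - z0‖ := not_lt.1 fun h => hfx (h3 h)
    have h6 := geo h5
    have h7 : ‖x - y‖ ^ 2 / 4 ≤ ψ x - t0 := h6
    have h8 : 0 ≤ ψ x - t0 := le_trans (by positivity) h7
    have h9 : s / 2 * (ψ x - t0) ^ 2 ≤ (ψ x - t0) / 2 := by
      have : s * (ψ x - t0) ≤ 1 := by
        have := mul_le_mul_of_nonneg_left h4 hs0.le
        rwa [mul_one_div_cancel hs0.ne'] at this
      nlinarith
    simp only [hφd, wt]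
    linarith
  -- cutoff
  let χ : ContDiffBump y := ⟨R / 2, R, by positivity, by linarith⟩
  set w : E → ℝ := fun x => χ x * f x with hw
  have hwc : ContDiff ℝ ∞ w := χ.contDiff.mul hf
  have hwK : HasCompactSupport w := χ.hasCompactSupport.mul_right
  have hwts : tsupport w ⊆ Metric.closedBall y R := by
    have h1 : tsupport w ⊆ tsupport χ := tsupport_mul_subset_left
    rwa [χ.tsupport_eq] at h1
  have hwφ : ∀ x ∈ tsupport w, φ x ≤ -(‖x - y‖ ^ 2 / 8) := by
    have hcl : IsClosed {x | φ x ≤ -(‖x - y‖ ^ 2 / 8)} := by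
      refine isClosed_le hφ.continuous ?_
      fun_prop
    have : Function.support w ⊆ {x | φ x ≤ -(‖x - y‖ ^ 2 / 8)} := by
      intro x hx
      have h1 : χ x * f x ≠ 0 := hx
      have h2 : f x ≠ 0 := right_ne_zero_of_mul h1
      exact hφf x (hwts (subset_tsupport w hx)) h2
    exact fun x hx => (closure_minimal this hcl) hx
  obtain ⟨M, hM⟩ : ∃ M, ∀ x, ‖PP a w x‖ ≤ M :=
    HasCompactSupport.exists_bound_of_continuous
      (HasCompactSupport.intro hwK fun x h => PP_zero h) (PP_contDiff ha hwc).continuous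
  have hM0 : 0 ≤ M := (norm_nonneg _).trans (hM y)
  -- v
  let v : ℝ → E → ℝ := fun τ x => Real.exp (τ * φ x) * w x
  have hvc : ∀ τ, ContDiff ℝ ∞ (v τ) := fun τ => (exp_cd hφ τ).mul hwc
  have hvs : ∀ τ, tsupport (v τ) ⊆ tsupport w := fun τ => tsupport_mul_subset_right
  have hvK : ∀ τ, HasCompactSupport (v τ) := fun τ => hwK.mul_left
  -- pointwise bound
  have hpt : ∀ τ, 0 ≤ τ → ∀ x, (Pτ a φ (v τ) τ x) ^ 2 ≤ C ^ 2 * v τ x ^ 2 +
      (Metric.closedBall y R).indicator (fun _ => M ^ 2 * Real.exp (-(τ * R ^ 2 / 16))) x := by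
    intro τ hτ x
    have hconj := conj_eq ha hs hφ hwc τ x
    have hind : 0 ≤ (Metric.closedBall y R).indicator
        (fun _ => M ^ 2 * Real.exp (-(τ * R ^ 2 / 16))) x :=
      indicator_nonneg (fun _ _ => by positivity) x
    change (Pτ a φ (fun y => Real.exp (τ * φ y) * w y) τ x) ^ 2 ≤ _
    rw [← hconj]
    by_cases hxw : x ∈ tsupport w
    · have hxR := hwts hxw
      by_cases hxin : x ∈ Metric.ball y (R / 2)
      · have hwf : w =ᶠ[𝓝 x] f := by
          have h1 : χ =ᶠ[𝓝 x] 1 := χ.eventuallyEq_one_of_mem_ball hxin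
          filter_upwards [h1] with z hz
          simp [hw, hz]
        rw [PP_congr hwf]
        have h2 := (hball x hxR).2.1
        have h3 : (PP a f x) ^ 2 ≤ C ^ 2 * f x ^ 2 := by
          have h4 : |PP a f x| ^ 2 ≤ (C * |f x|) ^ 2 := by
            gcongr
          rw [sq_abs, mul_pow, sq_abs] at h4
          exact h4
        have h5 : w x = f x := hwf.eq_of_nhds
        have h6 : (Real.exp (τ * φ x) * PP a f x) ^ 2 ≤ C ^ 2 * v τ x ^ 2 := by
          simp only [v, h5, mul_pow]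
          have := mul_le_mul_of_nonneg_left h3 (sq_nonneg (Real.exp (τ * φ x)))
          linarith
        linarith
      · rw [indicator_of_mem hxR]
        have h1 : R / 2 ≤ ‖x - y‖ := by
          rw [Metric.mem_ball, dist_eq_norm, not_lt] at hxin
          exact hxin
        have h2 := hwφ x hxw
        have h3 : φ x ≤ -(R ^ 2 / 32) := by nlinarith
        have h4 : Real.exp (τ * φ x) ^ 2 ≤ Real.exp (-(τ * R ^ 2 / 16)) := by
          rw [← Real.exp_nat_mul]
          apply Real.exp_le_exp.2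
          push_cast
          nlinarith
        have h5 : (PP a w x) ^ 2 ≤ M ^ 2 := by
          rw [← sq_abs]
          have := hM x
          rw [Real.norm_eq_abs] at this
          gcongr
        have h6 : 0 ≤ C ^ 2 * v τ x ^ 2 := by positivity
        rw [mul_pow]
        have h7 : Real.exp (τ * φ x) ^ 2 * PP a w x ^ 2 ≤
            Real.exp (-(τ * R ^ 2 / 16)) * M ^ 2 :=
          mul_le_mul h4 h5 (sq_nonneg _) (Real.exp_nonneg _)
        linarith
    · rw [PP_zero hxw]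
      have : 0 ≤ C ^ 2 * v τ x ^ 2 := by positivity
      simp only [mul_zero, ne_eq, OfNat.ofNat_ne_zero, not_false_eq_true, zero_pow]
      linarith
  -- integrated bound
  set vol : ℝ := μ.real (Metric.closedBall y R) with hvol
  have hint : ∀ τ, 0 ≤ τ → (2 * τ ^ 3 * (κ - β * Nb) - τ ^ 2 * β ^ 2 - τ * C2 ^ 2 - C ^ 2) *
      ∫ x, v τ x ^ 2 ∂μ ≤ vol * (M ^ 2 * Real.exp (-(τ * R ^ 2 / 16))) := by
    intro τ hτ
    have h1 := carl_int ha hs hφ (hvc τ) μ hτ hβα hβ0 (hvK τ)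
      (fun x hx => (hball x (hwts (hvs τ hx))).1)
    have hi1 : Integrable (fun x => v τ x ^ 2) μ :=
      (((hvc τ).pow 2).continuous).integrable_of_hasCompactSupport
        (HasCompactSupport.intro (hvK τ) fun x h => by simp [v_zero h])
    have hi2 : Integrable ((Metric.closedBall y R).indicator
        (fun _ => M ^ 2 * Real.exp (-(τ * R ^ 2 / 16)))) μ := by
      rw [integrable_indicator_iff Metric.isClosed_closedBall.measurableSet]
      exact integrableOn_const (isCompact_closedBall y R).measure_lt_top.ne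
    have hi3 : Integrable (fun x => (Pτ a φ (v τ) τ x) ^ 2) μ :=
      (((Pτ_cd ha hφ (hvc τ) τ).pow 2).continuous).integrable_of_hasCompactSupport
        (HasCompactSupport.intro (hvK τ) fun x h => by simp [Pτ_zero τ h])
    have h2 := integral_mono (μ := μ) hi3 ((hi1.const_mul (C ^ 2)).add hi2) (hpt τ hτ)
    have h3 : ∫ x, (C ^ 2 * v τ x ^ 2 + (Metric.closedBall y R).indicator
        (fun _ => M ^ 2 * Real.exp (-(τ * R ^ 2 / 16))) x) ∂μ =
        C ^ 2 * ∫ x, v τ x ^ 2 ∂μ + vol * (M ^ 2 * Real.exp (-(τ * R ^ 2 / 16))) := by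
      rw [integral_add (hi1.const_mul _) hi2, integral_const_mul,
        integral_indicator Metric.isClosed_closedBall.measurableSet, setIntegral_const,
        smul_eq_mul]
    have h4 : ∫ x, (Pτ a φ (v τ) τ x) ^ 2 ∂μ ≤ C ^ 2 * ∫ x, v τ x ^ 2 ∂μ +
        vol * (M ^ 2 * Real.exp (-(τ * R ^ 2 / 16))) := by
      rw [← h3]
      exact h2
    linarith
  -- lower bound
  have hφlow : ∀ᶠ x in 𝓝 y, -(R ^ 2 / 64) ≤ φ x :=
    ev_ge hφ.continuous.continuousAt (by rw [hφy]; have : 0 < R ^ 2 := by positivity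
                                         linarith)
  obtain ⟨ρ, hρ, hρl⟩ := Metric.nhds_basis_closedBall.eventually_iff.1 hφlow
  let χ2 : ContDiffBump y := ⟨ρ / 2, ρ, by positivity, by linarith⟩
  set I : ℝ := ∫ x, χ2 x * w x ^ 2 ∂μ with hI
  have hIle : ∀ τ, 0 ≤ τ → Real.exp (-(τ * R ^ 2 / 32)) * I ≤ ∫ x, v τ x ^ 2 ∂μ := by
    intro τ hτ
    rw [hI, ← integral_const_mul]
    refine integral_mono ?_ ?_ ?_
    · refine Integrable.const_mul ?_ _
      exact ((χ2.contDiff (n := (⊤ : ℕ∞))).mul (hwc.pow 2)).continuous.integrable_of_hasCompactSupport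
        χ2.hasCompactSupport.mul_right
    · exact (((hvc τ).pow 2).continuous).integrable_of_hasCompactSupport
        (HasCompactSupport.intro (hvK τ) fun x h => by simp [v_zero h])
    · intro x
      by_cases hx : x ∈ Metric.closedBall y ρ
      · have h1 := hρl hx
        have h2 : Real.exp (-(τ * R ^ 2 / 32)) ≤ Real.exp (τ * φ x) ^ 2 := by
          rw [← Real.exp_nat_mul]
          apply Real.exp_le_exp.2
          push_cast
          nlinarith
        have h3 : χ2 x * w x ^ 2 ≤ w x ^ 2 := by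
          have := χ2.le_one (x := x)
          nlinarith [sq_nonneg (w x)]
        have h4 : 0 ≤ χ2 x * w x ^ 2 := mul_nonneg χ2.nonneg (sq_nonneg _)
        simp only [v, mul_pow]
        exact mul_le_mul h2 h3 h4 (by positivity)
      · have h1 : χ2 x = 0 := by
          apply χ2.zero_of_le_dist
          rw [Metric.mem_closedBall, not_le] at hx
          exact hx.le
        simp only [h1, zero_mul, mul_zero]
        positivity
  have hI0 : 0 ≤ I := integral_nonneg fun x => mul_nonneg χ2.nonneg (sq_nonneg _)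
  -- limit
  have hIz : I = 0 := by
    by_contra hne
    have hIp : 0 < I := lt_of_le_of_ne hI0 (Ne.symm hne)
    have hvol0 : 0 ≤ vol := measureReal_nonneg
    -- choose τ large
    have hδ : 0 < κ - β * Nb := by linarith
    have hlim : Tendsto (fun τ : ℝ => τ * (τ * (2 * τ * (κ - β * Nb) - β ^ 2) - C2 ^ 2)) atTop
        atTop := by
      have h1 : Tendsto (fun τ : ℝ => 2 * τ * (κ - β * Nb) - β ^ 2) atTop atTop := by
        apply tendsto_atTop_add_const_right
        exact (tendsto_id.const_mul_atTop (by norm_num : (0 : ℝ) < 2)).atTop_mul_const hδ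
      exact tendsto_id.atTop_mul_atTop₀ (tendsto_atTop_add_const_right _ _
        (tendsto_id.atTop_mul_atTop₀ h1))
    have hlim2 : Tendsto (fun τ : ℝ => Real.exp (τ * (R ^ 2 / 32))) atTop atTop := by
      refine Real.tendsto_exp_atTop.comp ?_
      exact tendsto_id.atTop_mul_const (by positivity)
    obtain ⟨τ, hτ0, hτ1, hτ2⟩ := ((eventually_ge_atTop (0 : ℝ)).and
      ((hlim.eventually_ge_atTop (C ^ 2 + 1)).and
        (hlim2.eventually_gt_atTop (vol * M ^ 2 / I)))).exists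
    have h1 := hint τ hτ0
    have h2 := hIle τ hτ0
    have h3 : ∫ x, v τ x ^ 2 ∂μ ≤ vol * (M ^ 2 * Real.exp (-(τ * R ^ 2 / 16))) := by
      have h4 : 1 ≤ 2 * τ ^ 3 * (κ - β * Nb) - τ ^ 2 * β ^ 2 - τ * C2 ^ 2 - C ^ 2 := by
        nlinarith [hτ1]
      have h5 : 0 ≤ ∫ x, v τ x ^ 2 ∂μ := integral_nonneg fun x => sq_nonneg _
      nlinarith
    have h6 : Real.exp (-(τ * R ^ 2 / 16)) =
        Real.exp (-(τ * R ^ 2 / 32)) * Real.exp (-(τ * R ^ 2 / 32)) := by
      rw [← Real.exp_add]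
      ring_nf
    have h7 : Real.exp (-(τ * R ^ 2 / 32)) * I ≤
        Real.exp (-(τ * R ^ 2 / 32)) * (vol * M ^ 2 * Real.exp (-(τ * R ^ 2 / 32))) := by
      calc _ ≤ vol * (M ^ 2 * Real.exp (-(τ * R ^ 2 / 16))) := h2.trans h3
        _ = _ := by rw [h6]; ring
    have h8 : I ≤ vol * M ^ 2 * Real.exp (-(τ * R ^ 2 / 32)) :=
      le_of_mul_le_mul_left h7 (Real.exp_pos _)
    have h9 : Real.exp (-(τ * R ^ 2 / 32)) * Real.exp (τ * (R ^ 2 / 32)) = 1 := by
      rw [← Real.exp_add]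
      ring_nf
      exact Real.exp_zero
    have h10 : vol * M ^ 2 < I * Real.exp (τ * (R ^ 2 / 32)) := by
      rw [div_lt_iff₀ hIp] at hτ2
      linarith
    have h11 : I * Real.exp (τ * (R ^ 2 / 32)) ≤ vol * M ^ 2 := by
      have := mul_le_mul_of_nonneg_right h8 (Real.exp_nonneg (τ * (R ^ 2 / 32)))
      calc _ ≤ _ := this
        _ = vol * M ^ 2 * (Real.exp (-(τ * R ^ 2 / 32)) * Real.exp (τ * (R ^ 2 / 32))) := by ring
        _ = _ := by rw [h9, mul_one]
    linarith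
  -- conclusion
  have hfin : ∀ x, χ2 x * w x ^ 2 = 0 := by
    intro x
    by_contra hne
    have h1 := Continuous.integral_pos_of_hasCompactSupport_nonneg_nonzero (μ := μ)
      (f := fun x => χ2 x * w x ^ 2) (x := x)
      ((χ2.contDiff (n := (⊤ : ℕ∞))).mul (hwc.pow 2)).continuous χ2.hasCompactSupport.mul_right
      (fun x => mul_nonneg χ2.nonneg (sq_nonneg _)) hne
    rw [← hI, hIz] at h1
    exact lt_irrefl _ h1
  filter_upwards [Metric.ball_mem_nhds y hρ, Metric.ball_mem_nhds y (half_pos hR)] with x h1 h2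
  have h3 : χ2 x ≠ 0 := (χ2.pos_of_mem_ball h1).ne'
  have h4 : w x = 0 := by
    have := hfin x
    rcases mul_eq_zero.1 this with h | h
    · exact absurd h h3
    · exact pow_eq_zero_iff (two_ne_zero) |>.1 h
  have h5 : χ x = 1 := χ.one_of_mem_closedBall (Metric.ball_subset_closedBall h2)
  simpa [hw, h5] using h4

end local_ucp

end Pool.Agent.Q196.DE
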