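import Pool.Agent.Q196.DE.Conj

set_option autoImplicit false
set_option linter.unusedSectionVars false
set_option maxSynthPendingDepth 3

open MeasureTheory Set Filter Topology
open scoped ContDiff

namespace Pool.Agent.Q196.DE

variable {E : Type*} [NormedAddCommGroup E] [NormedSpace ℝ E] [FiniteDimensional ℝ E]

variable {a : E → (E →L[ℝ] ℝ) →L[ℝ] E} (ha : ContDiff ℝ ∞ a) (hs : Sym a) {ψ : E → ℝ}
  (hψ : ContDiff ℝ ∞ ψ)

/-- the weight -/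
noncomputable def wt (ψ : E → ℝ) (s t0 : ℝ) (x : E) : ℝ :=
  -(ψ x - t0) + s / 2 * (ψ x - t0) ^ 2

include hψ in
lemma wt_cd (s t0 : ℝ) : ContDiff ℝ ∞ (wt ψ s t0) := by
  unfold wt
  exact (hψ.sub contDiff_const).neg.add (contDiff_const.mul ((hψ.sub contDiff_const).pow 2))

/-- the derivative factor -/
noncomputable def pf (ψ : E → ℝ) (s t0 : ℝ) (x : E) : ℝ := -1 + s * (ψ x - t0)

include hψ in
lemma pf_cd (s t0 : ℝ) : ContDiff ℝ ∞ (pf ψ s t0) := by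
  unfold pf
  exact contDiff_const.add (contDiff_const.mul (hψ.sub contDiff_const))

include hψ in
lemma fderiv_wt (s t0 : ℝ) (x : E) : fderiv ℝ (wt ψ s t0) x = pf ψ s t0 x • fderiv ℝ ψ x := by
  have h1 : HasFDerivAt ψ (fderiv ℝ ψ x) x := (hψ.differentiable (by simp) x).hasFDerivAt
  have h2 := h1.sub_const t0
  have h3 := (h2.fun_neg).fun_add ((h2.mul h2).const_mul (s / 2))
  have h5 : wt ψ s t0 = fun x => -(ψ x - t0) + s / 2 * ((ψ x - t0) * (ψ x - t0)) := by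
    funext z
    unfold wt
    ring
  have h4 : fderiv ℝ (wt ψ s t0) x =
      (-fderiv ℝ ψ x + (s / 2) • ((ψ x - t0) • fderiv ℝ ψ x + (ψ x - t0) • fderiv ℝ ψ x)) := by
    rw [h5]
    exact h3.fderiv
  rw [h4]
  ext t
  simp [pf]
  ring

include hψ in
lemma fderiv_pf (s t0 : ℝ) (x : E) : fderiv ℝ (pf ψ s t0) x = s • fderiv ℝ ψ x := by
  have h1 : HasFDerivAt ψ (fderiv ℝ ψ x) x := (hψ.differentiable (by simp) x).hasFDerivAt
  have h2 := h1.sub_const t0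
  have h3 := (h2.const_mul s).const_add (-1)
  exact h3.fderiv

include hψ in
lemma gr_wt (s t0 : ℝ) : gr a (wt ψ s t0) = fun x => pf ψ s t0 x • gr a ψ x := by
  funext x
  unfold gr
  rw [fderiv_wt hψ, map_smul]

/-- the unperturbed form -/
noncomputable def qf (a : E → (E →L[ℝ] ℝ) →L[ℝ] E) (ψ : E → ℝ) (x : E) (ξ : E →L[ℝ] ℝ) : ℝ :=
  2 * ξ (fderiv ℝ (gr a ψ) x (a x ξ)) - ξ (fderiv ℝ a x (gr a ψ x) ξ)

include ha hs hψ in
lemma Q_wt (s t0 : ℝ) (x : E) (ξ : E →L[ℝ] ℝ) :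
    2 * ξ (fderiv ℝ (gr a (wt ψ s t0)) x (a x ξ)) -
      ξ (fderiv ℝ a x (gr a (wt ψ s t0) x) ξ) =
    pf ψ s t0 x * qf a ψ x ξ + 2 * s * (ξ (gr a ψ x)) ^ 2 := by
  rw [gr_wt hψ]
  have h1 : DifferentiableAt ℝ (pf ψ s t0) x := (pf_cd hψ s t0).differentiable (by simp) x
  have h2 : DifferentiableAt ℝ (gr a ψ) x := (gr_contDiff ha hψ).differentiable (by simp) x
  rw [fderiv_fun_smul h1 h2, fderiv_pf hψ]
  have h3 : fderiv ℝ ψ x (a x ξ) = ξ (gr a ψ x) := hs x _ _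
  simp only [map_smul, smul_eq_mul, _root_.add_apply, map_add,
    _root_.smul_apply, ContinuousLinearMap.smulRight_apply, qf, h3]
  ring

/-- norm squared of the gradient -/
noncomputable def Nf (a : E → (E →L[ℝ] ℝ) →L[ℝ] E) (ψ : E → ℝ) (x : E) : ℝ :=
  fderiv ℝ ψ x (gr a ψ x)

include hψ in
lemma N_wt (s t0 : ℝ) (x : E) : fderiv ℝ (wt ψ s t0) x (gr a (wt ψ s t0) x) =
    pf ψ s t0 x ^ 2 * Nf a ψ x := by
  rw [gr_wt hψ, fderiv_wt hψ]
  simp only [map_smul, smul_eq_mul, _root_.smul_apply, Nf]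
  ring

include ha hψ in
lemma K_wt (s t0 : ℝ) (x : E) :
    fderiv ℝ (fun y => fderiv ℝ (wt ψ s t0) y (gr a (wt ψ s t0) y)) x (gr a (wt ψ s t0) x) =
      2 * s * pf ψ s t0 x ^ 2 * Nf a ψ x ^ 2 +
        pf ψ s t0 x ^ 3 * fderiv ℝ (Nf a ψ) x (gr a ψ x) := by
  have h0 : (fun y => fderiv ℝ (wt ψ s t0) y (gr a (wt ψ s t0) y)) =
      fun y => pf ψ s t0 y ^ 2 * Nf a ψ y := by
    funext y
    exact N_wt hψ s t0 y
  rw [h0, gr_wt hψ]
  have h1 : DifferentiableAt ℝ (pf ψ s t0) x := (pf_cd hψ s t0).differentiable (by simp) x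
  have h2 : DifferentiableAt ℝ (Nf a ψ) x := (pair_contDiff ha hψ hψ).differentiable (by simp) x
  rw [fderiv_fun_mul (h1.fun_pow 2) h2, fderiv_fun_pow 2 h1, fderiv_pf hψ]
  have h3 : fderiv ℝ ψ x (gr a ψ x) = Nf a ψ x := rfl
  simp only [map_smul, smul_eq_mul, _root_.add_apply, _root_.smul_apply, h3]
  simp
  ring

include ha in
/-- uniform positivity near a point -/
lemma exists_alpha {y : E} (hpos : ∀ ξ : E →L[ℝ] ℝ, ξ ≠ 0 → 0 < ξ (a y ξ)) :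
    ∃ α : ℝ, 0 < α ∧ ∀ᶠ x in 𝓝 y, ∀ ξ : E →L[ℝ] ℝ, α * ‖ξ‖ ^ 2 ≤ ξ (a x ξ) := by
  have hcont : Continuous fun ξ : E →L[ℝ] ℝ => ξ (a y ξ) := by fun_prop
  have hcpt : IsCompact (Metric.sphere (0 : E →L[ℝ] ℝ) 1) := isCompact_sphere _ _
  obtain ⟨α, hα, hαs⟩ : ∃ α : ℝ, 0 < α ∧ ∀ ξ ∈ Metric.sphere (0 : E →L[ℝ] ℝ) 1,
      α ≤ ξ (a y ξ) := by
    rcases (Metric.sphere (0 : E →L[ℝ] ℝ) 1).eq_empty_or_nonempty with he | hne
    · exact ⟨1, one_pos, by simp [he]⟩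
    · obtain ⟨ξ0, h0, hmin⟩ := hcpt.exists_isMinOn hne hcont.continuousOn
      refine ⟨ξ0 (a y ξ0), hpos ξ0 ?_, fun ξ hξ => hmin hξ⟩
      rintro rfl
      simp at h0
  have hall : ∀ ξ : E →L[ℝ] ℝ, α * ‖ξ‖ ^ 2 ≤ ξ (a y ξ) := by
    intro ξ
    by_cases hξ : ξ = 0
    · simp [hξ]
    · have hn : 0 < ‖ξ‖ := norm_pos_iff.2 hξ
      have := hαs (‖ξ‖⁻¹ • ξ) (by simp [norm_smul, hn.ne'])
      simp only [map_smul, _root_.smul_apply, smul_eq_mul] at this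
      have h2 : ‖ξ‖ ^ 2 * (‖ξ‖⁻¹ * (‖ξ‖⁻¹ * ξ (a y ξ))) = ξ (a y ξ) := by
        field_simp
      nlinarith [sq_nonneg ‖ξ‖, mul_le_mul_of_nonneg_left this (sq_nonneg ‖ξ‖)]
  refine ⟨α / 2, by positivity, ?_⟩
  have hac : Continuous a := ha.continuous
  have hev : ∀ᶠ x in 𝓝 y, ‖a x - a y‖ < α / 2 := by
    have : Tendsto (fun x => ‖a x - a y‖) (𝓝 y) (𝓝 ‖a y - a y‖) :=
      ((hac.sub continuous_const).norm).tendsto y
    rw [sub_self, norm_zero] at this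
    exact this.eventually (gt_mem_nhds (by positivity))
  filter_upwards [hev] with x hx ξ
  have h1 : |ξ ((a x - a y) ξ)| ≤ ‖ξ‖ * (‖a x - a y‖ * ‖ξ‖) :=
    (ξ.le_opNorm _).trans (mul_le_mul_of_nonneg_left ((a x - a y).le_opNorm ξ) (norm_nonneg _))
  have h2 : ξ ((a x - a y) ξ) = ξ (a x ξ) - ξ (a y ξ) := by simp
  have h3 := (abs_le.1 h1).1
  rw [h2] at h3
  have h4 := hall ξ
  nlinarith [sq_nonneg ‖ξ‖, mul_le_mul_of_nonneg_left hx.le (sq_nonneg ‖ξ‖)]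

/-- eventually bounded by the value plus one -/
lemma ev_le {X : Type*} [TopologicalSpace X] {g : X → ℝ} {y : X} (hg : ContinuousAt g y) {c : ℝ}
    (hc : g y < c) : ∀ᶠ x in 𝓝 y, g x ≤ c :=
  (hg.eventually (gt_mem_nhds hc)).mono fun _ h => le_of_lt h

lemma ev_ge {X : Type*} [TopologicalSpace X] {g : X → ℝ} {y : X} (hg : ContinuousAt g y) {c : ℝ}
    (hc : c < g y) : ∀ᶠ x in 𝓝 y, c ≤ g x :=
  (hg.eventually (lt_mem_nhds hc)).mono fun _ h => le_of_lt h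

include ha hs hψ in
theorem exists_hyp {y : E} {t0 : ℝ} (hpos : ∀ ξ : E →L[ℝ] ℝ, ξ ≠ 0 → 0 < ξ (a y ξ))
    (hy : ψ y = t0) (hd : fderiv ℝ ψ y ≠ 0) :
    ∃ s C1 C2 α κ Nb β : ℝ, 0 < s ∧ 0 ≤ β ∧ β * α = C1 + 1 / 2 ∧ β * Nb < κ ∧
      ∀ᶠ x in 𝓝 y, Hyp a (wt ψ s t0) C1 C2 α κ Nb x := by
  obtain ⟨α, hα, hαe⟩ := exists_alpha ha hpos
  -- the constant c0
  let c : E → ℝ := fun x => 2 * (‖fderiv ℝ (gr a ψ) x‖ * ‖a x‖) + ‖fderiv ℝ a x‖ * ‖gr a ψ x‖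
  have hgψ := gr_contDiff ha hψ
  have hcc : Continuous c := by
    have h1 : Continuous (fderiv ℝ (gr a ψ)) := hgψ.continuous_fderiv (by simp)
    have h2 : Continuous (fderiv ℝ a) := ha.continuous_fderiv (by simp)
    have h3 : Continuous a := ha.continuous
    have h4 : Continuous (gr a ψ) := hgψ.continuous
    exact (continuous_const.mul (h1.norm.mul h3.norm)).add (h2.norm.mul h4.norm)
  have hq : ∀ x (ξ : E →L[ℝ] ℝ), |qf a ψ x ξ| ≤ c x * ‖ξ‖ ^ 2 := by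
    intro x ξ
    have h1 : |ξ (fderiv ℝ (gr a ψ) x (a x ξ))| ≤
        ‖ξ‖ * (‖fderiv ℝ (gr a ψ) x‖ * (‖a x‖ * ‖ξ‖)) := by
      refine (ξ.le_opNorm _).trans (mul_le_mul_of_nonneg_left ?_ (norm_nonneg _))
      refine ((fderiv ℝ (gr a ψ) x).le_opNorm _).trans
        (mul_le_mul_of_nonneg_left ((a x).le_opNorm _) (norm_nonneg _))
    have h2 : |ξ (fderiv ℝ a x (gr a ψ x) ξ)| ≤
        ‖ξ‖ * (‖fderiv ℝ a x‖ * ‖gr a ψ x‖ * ‖ξ‖) := by
      refine (ξ.le_opNorm _).trans (mul_le_mul_of_nonneg_left ?_ (norm_nonneg _))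
      refine ((fderiv ℝ a x (gr a ψ x)).le_opNorm _).trans
        (mul_le_mul_of_nonneg_right ((fderiv ℝ a x).le_opNorm _) (norm_nonneg _))
    unfold qf
    have h3 := abs_sub (2 * ξ (fderiv ℝ (gr a ψ) x (a x ξ))) (ξ (fderiv ℝ a x (gr a ψ x) ξ))
    rw [abs_mul, abs_two] at h3
    simp only [c]
    nlinarith [h1, h2, h3]
  have hc0 : ∀ x, 0 ≤ c x := fun x => by positivity
  set C0 := c y + 1 with hC0
  have hC0p : 0 < C0 := by have := hc0 y; linarith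
  set C1 := 2 * C0 with hC1
  set β := (C1 + 1 / 2) / α with hβ
  have hβ0 : 0 ≤ β := by positivity
  have hβα : β * α = C1 + 1 / 2 := by rw [hβ]; field_simp
  have hN0 : 0 < Nf a ψ y := hpos _ hd
  set N0 := Nf a ψ y with hN0d
  set k1 := fderiv ℝ (Nf a ψ) y (gr a ψ y) with hk1
  set Nb := N0 + 1 with hNb
  -- choose s
  obtain ⟨s, hs0, hsb⟩ : ∃ s : ℝ, 0 < s ∧ β * Nb < 2 * s * N0 ^ 2 - k1 - 1 := by
    refine ⟨(|β * Nb + k1 + 1| + 1) / (2 * N0 ^ 2), by positivity, ?_⟩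
    have h1 : 2 * ((|β * Nb + k1 + 1| + 1) / (2 * N0 ^ 2)) * N0 ^ 2 = |β * Nb + k1 + 1| + 1 := by
      field_simp
    rw [h1]
    have := le_abs_self (β * Nb + k1 + 1)
    linarith
  set κ := 2 * s * N0 ^ 2 - k1 - 1 with hκ
  have hφ := wt_cd hψ s t0
  set φ := wt ψ s t0 with hφd
  have hpy : pf ψ s t0 y = -1 := by simp [pf, hy]
  -- K
  let Kf : E → ℝ := fun x => fderiv ℝ (fun y => fderiv ℝ φ y (gr a φ y)) x (gr a φ x)
  have hKc : Continuous Kf :=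
    ((pair_contDiff ha hφ hφ).continuous_fderiv (by simp)).clm_apply (gr_contDiff ha hφ).continuous
  have hKy : Kf y = 2 * s * N0 ^ 2 - k1 := by
    simp only [Kf, hφd]
    rw [K_wt ha hψ, hpy]
    ring
  have hNc : Continuous fun x => fderiv ℝ φ x (gr a φ x) := (pair_contDiff ha hφ hφ).continuous
  have hNy : fderiv ℝ φ y (gr a φ y) = N0 := by
    rw [hφd, N_wt hψ, hpy]
    ring
  let c2 : E → ℝ := fun x => ‖fderiv ℝ (PP a φ) x‖ * ‖a x‖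
  have hc2 : Continuous c2 := by
    have h1 : Continuous (fderiv ℝ (PP a φ)) := (PP_contDiff ha hφ).continuous_fderiv (by simp)
    have h3 : Continuous a := ha.continuous
    exact h1.norm.mul h3.norm
  refine ⟨s, C1, c2 y + 1, α, κ, Nb, β, hs0, hβ0, hβα, hsb, ?_⟩
  have hpc : Continuous (pf ψ s t0) := (pf_cd hψ s t0).continuous
  filter_upwards [hαe, ev_le hcc.continuousAt (show c y < C0 by linarith),
    ev_ge hKc.continuousAt (show κ < Kf y by rw [hKy]; linarith),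
    ev_le hNc.continuousAt (show fderiv ℝ φ y (gr a φ y) < Nb by rw [hNy]; linarith),
    ev_le hc2.continuousAt (show c2 y < c2 y + 1 by linarith),
    ev_le (hpc.abs.continuousAt (x := y)) (show |pf ψ s t0 y| < 2 by rw [hpy]; norm_num)]
    with x hx4 hxc hxK hxN hx2 hxp
  refine ⟨?_, hxK, ?_, hx4, hxN⟩
  · intro ξ
    rw [Q_wt ha hs hψ]
    have h1 : |pf ψ s t0 x * qf a ψ x ξ| ≤ 2 * (C0 * ‖ξ‖ ^ 2) := by
      rw [abs_mul]
      exact mul_le_mul hxp ((hq x ξ).trans (mul_le_mul_of_nonneg_right hxc (sq_nonneg _)))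
        (abs_nonneg _) (by norm_num)
    have h2 := (abs_le.1 h1).1
    have h3 : 0 ≤ 2 * s * (ξ (gr a ψ x)) ^ 2 := by positivity
    linarith
  · intro ξ
    have h1 : |fderiv ℝ (PP a φ) x (a x ξ)| ≤ ‖fderiv ℝ (PP a φ) x‖ * (‖a x‖ * ‖ξ‖) :=
      ((fderiv ℝ (PP a φ) x).le_opNorm _).trans
        (mul_le_mul_of_nonneg_left ((a x).le_opNorm _) (norm_nonneg _))
    rw [← mul_assoc] at h1
    exact h1.trans (mul_le_mul_of_nonneg_right hx2 (norm_nonneg _))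

end Pool.Agent.Q196.DE
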